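import Mathlib

set_option autoImplicit false

namespace Pool.Agent.H319B

open Polynomial

/-- the polynomial `R_n` -/
noncomputable def Rn (n : ℕ) : ℚ[X] :=
  Polynomial.bernoulli n /ₘ (X * (X - C (1 / 2)) * (X - C 1))

/-- the odd primes `p` for which `B_n` is not `p`-integral -/
noncomputable def S (n : ℕ) : Finset ℕ := by
  classical
  exact (Finset.range (n + 1)).filter (fun p => p.Prime ∧ p ≠ 2 ∧
    ∃ k, 0 < k ∧ k ≤ n ∧ (p - 1) ∣ k ∧ ¬ p ∣ n.choose k)

/-- product of these primes -/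
noncomputable def D (n : ℕ) : ℕ := ∏ p ∈ S n, p

theorem cubic_monic : (X * (X - C (1 / 2)) * (X - C 1) : ℚ[X]).Monic :=
  (monic_X.mul (monic_X_sub_C _)).mul (monic_X_sub_C _)

theorem cubic_natDegree : (X * (X - C (1 / 2)) * (X - C 1) : ℚ[X]).natDegree = 3 := by
  rw [Monic.natDegree_mul (monic_X.mul (monic_X_sub_C _)) (monic_X_sub_C _),
    Monic.natDegree_mul monic_X (monic_X_sub_C _), natDegree_X, natDegree_X_sub_C,
    natDegree_X_sub_C]

theorem bern_coeff_top (n : ℕ) : (Polynomial.bernoulli n).coeff n = 1 := by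
  rw [coeff_bernoulli, if_pos le_rfl, Nat.sub_self, Nat.choose_self, _root_.bernoulli_zero]
  simp

theorem bern_natDegree (n : ℕ) : (Polynomial.bernoulli n).natDegree = n := by
  refine le_antisymm ?_ ?_
  · rw [natDegree_le_iff_coeff_eq_zero]
    intro i hi
    rw [coeff_bernoulli, if_neg (by omega)]
  · refine le_natDegree_of_ne_zero ?_
    rw [bern_coeff_top]
    exact one_ne_zero

theorem bern_monic (n : ℕ) : (Polynomial.bernoulli n).Monic := by
  unfold Monic leadingCoeff
  rw [bern_natDegree, bern_coeff_top]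

theorem bern_zero (n : ℕ) (hn : 3 ≤ n) (ho : Odd n) : (Polynomial.bernoulli n).eval 0 = 0 := by
  rw [bernoulli_eval_zero, bernoulli_eq_zero_of_odd ho (by omega)]

theorem bern_one' (n : ℕ) (hn : 3 ≤ n) (ho : Odd n) : (Polynomial.bernoulli n).eval 1 = 0 := by
  rw [bernoulli_eval_one, bernoulli'_eq_zero_of_odd ho (by omega)]

theorem bern_half (n : ℕ) (ho : Odd n) : (Polynomial.bernoulli n).eval (1 / 2) = 0 := by
  have h := bernoulli_eval_one_sub n (1 / 2 : ℚ)
  rw [ho.neg_one_pow] at h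
  norm_num at h
  have h2 : (Polynomial.bernoulli n).eval (1 / 2 : ℚ) = - (Polynomial.bernoulli n).eval (1 / 2 : ℚ) := by
    simpa using h
  linarith

/-- A0 -/
theorem Rn_spec (n : ℕ) (hn : 3 ≤ n) (ho : Odd n) :
    Polynomial.bernoulli n = X * (X - C (1 / 2)) * (X - C 1) * Rn n ∧ (Rn n).Monic ∧
      (Rn n).natDegree = n - 3 := by
  have h0 : X ∣ Polynomial.bernoulli n := by
    rw [X_dvd_iff, coeff_zero_eq_eval_zero]
    exact bern_zero n hn ho
  have h1 : (X - C (1 / 2)) ∣ Polynomial.bernoulli n := by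
    rw [dvd_iff_isRoot]
    exact bern_half n ho
  have h2 : (X - C 1) ∣ Polynomial.bernoulli n := by
    rw [dvd_iff_isRoot]
    exact bern_one' n hn ho
  have c1 : IsCoprime (X : ℚ[X]) (X - C (1 / 2)) := by
    have := isCoprime_X_sub_C_of_isUnit_sub (a := (0 : ℚ)) (b := 1 / 2) (by
      rw [isUnit_iff_ne_zero]; norm_num)
    simpa using this
  have c2 : IsCoprime (X : ℚ[X]) (X - C 1) := by
    have := isCoprime_X_sub_C_of_isUnit_sub (a := (0 : ℚ)) (b := 1) (by
      rw [isUnit_iff_ne_zero]; norm_num)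
    simpa using this
  have c3 : IsCoprime (X - C (1 / 2) : ℚ[X]) (X - C 1) :=
    isCoprime_X_sub_C_of_isUnit_sub (by rw [isUnit_iff_ne_zero]; norm_num)
  have hd : (X * (X - C (1 / 2)) * (X - C 1) : ℚ[X]) ∣ Polynomial.bernoulli n :=
    IsCoprime.mul_dvd (IsCoprime.mul_left c2 c3) (IsCoprime.mul_dvd c1 h0 h1) h2
  have hm := (modByMonic_eq_zero_iff_dvd cubic_monic).2 hd
  have he : Polynomial.bernoulli n = X * (X - C (1 / 2)) * (X - C 1) * Rn n := by
    have := modByMonic_add_div (Polynomial.bernoulli n) (X * (X - C (1 / 2)) * (X - C 1) : ℚ[X])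
    rw [hm, zero_add] at this
    exact this.symm
  have hmon : (Rn n).Monic := by
    refine Monic.of_mul_monic_left cubic_monic ?_
    rw [← he]
    exact bern_monic n
  refine ⟨he, hmon, ?_⟩
  have hdeg := congrArg natDegree he
  rw [bern_natDegree, Monic.natDegree_mul cubic_monic hmon, cubic_natDegree] at hdeg
  omega

/-- A1 -/
theorem bern_two (n : ℕ) (hn : 3 ≤ n) (ho : Odd n) : (Polynomial.bernoulli n).eval 2 = n := by
  have h := bernoulli_eval_one_add n (1 : ℚ)
  rw [bern_one' n hn ho] at h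
  norm_num at h
  exact h

end Pool.Agent.H319B
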