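import Mathlib
import Pool.Agent.H319B.Basic

set_option autoImplicit false

namespace Pool.Agent.H319B

open Polynomial



theorem bi1_mem_S (n p : ℕ) : p ∈ S n ↔ p < n + 1 ∧ p.Prime ∧ p ≠ 2 ∧
    ∃ k, 0 < k ∧ k ≤ n ∧ (p - 1) ∣ k ∧ ¬ p ∣ n.choose k := by
  classical
  unfold S
  simp only [Finset.mem_filter, Finset.mem_range]

theorem D_odd (n : ℕ) : Odd (D n) := by
  unfold D
  refine Finset.prod_induction _ Odd (fun a b ha hb => ha.mul hb) odd_one fun p hp => ?_
  rw [bi1_mem_S] at hp
  exact hp.2.1.odd_of_ne_two hp.2.2.1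

theorem bi1_dvd (n k p : ℕ) (hk : 0 < k) (hkn : k + 1 ≤ n) (hp : p.Prime) (hp2 : p ≠ 2)
    (hpk : p - 1 ∣ k) : p ∣ D n * n.choose k := by
  by_cases h : p ∣ n.choose k
  · exact h.mul_left _
  · refine Dvd.dvd.mul_right ?_ _
    unfold D
    refine Finset.dvd_prod_of_mem _ ((bi1_mem_S n p).2 ⟨?_, hp, hp2, k, hk, by omega, hpk, h⟩)
    have h1 := Nat.le_of_dvd hk hpk
    omega

theorem bi1_even_choose (a b : ℕ) (ha : Even a) (hb : Odd b) : Even (a.choose b) := by
  obtain ⟨c, rfl⟩ := hb
  rcases Nat.eq_zero_or_pos a with h0 | h0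
  · subst h0
    rw [Nat.choose_eq_zero_of_lt (by omega)]
    exact Even.zero
  · obtain ⟨d, rfl⟩ : ∃ d, a = d + 1 := ⟨a - 1, by omega⟩
    have h1 := Nat.add_one_mul_choose_eq d (2 * c)
    have h2 : Even ((d + 1).choose (2 * c + 1) * (2 * c + 1)) := by
      have h3 : Even ((d + 1) * d.choose (2 * c)) := ha.mul_right _
      have h4 : (d + 1) * d.choose (2 * c) = (d + 1).choose (2 * c + 1) * (2 * c + 1) := h1
      rw [← h4]
      exact h3
    rcases Nat.even_mul.1 h2 with h3 | h3
    · exact h3
    · exact absurd h3 (by simp)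

/-- the even coefficients -/
theorem bi1_even (n m : ℕ) (hm : 1 ≤ m) (hmn : 2 * m + 1 ≤ n) :
    ∃ t : ℤ, ((2 * t - (D n * n.choose (2 * m) : ℕ) : ℤ) : ℚ) =
      2 * (D n : ℚ) * (_root_.bernoulli (2 * m) * (n.choose (2 * m) : ℕ)) := by
  obtain ⟨z, hz⟩ := Bernoulli.vonStaudt_clausen m
  set F := (Finset.range (2 * m + 2)).filter (fun p => p.Prime ∧ (p - 1) ∣ 2 * m) with hF
  have h2 : 2 ∈ F := by
    rw [hF, Finset.mem_filter, Finset.mem_range]
    exact ⟨by omega, Nat.prime_two, one_dvd _⟩
  rw [← Finset.add_sum_erase F _ h2] at hz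
  have hB : _root_.bernoulli (2 * m) = z - 1 / 2 - ∑ p ∈ F.erase 2, (1 : ℚ) / p := by
    push_cast at hz
    linarith
  set c := D n * n.choose (2 * m) with hc
  refine ⟨c * z - ∑ p ∈ F.erase 2, ((c / p : ℕ) : ℤ), ?_⟩
  have h3 : ∀ p ∈ F.erase 2, ((c / p : ℕ) : ℚ) = c * ((1 : ℚ) / p) := by
    intro p hp
    rw [Finset.mem_erase, hF, Finset.mem_filter, Finset.mem_range] at hp
    have hd : p ∣ c := bi1_dvd n (2 * m) p (by omega) hmn hp.2.2.1 hp.1 hp.2.2.2
    rw [Nat.cast_div hd (by exact_mod_cast hp.2.2.1.ne_zero), mul_one_div]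
  rw [hB]
  push_cast
  have h4 : ∑ p ∈ F.erase 2, (((c / p : ℕ) : ℤ) : ℚ) = c * ∑ p ∈ F.erase 2, (1 : ℚ) / p := by
    rw [Finset.mul_sum]
    refine Finset.sum_congr rfl fun p hp => ?_
    rw [← h3 p hp]
    push_cast
    rfl
  have h5 : ((c : ℕ) : ℚ) = (D n : ℚ) * (n.choose (2 * m) : ℕ) := by
    rw [hc]
    push_cast
    rfl
  push_cast at h4
  rw [h4, h5]
  ring

theorem bi1_T (n : ℕ) (hn : 3 ≤ n) : (X * (1 + X) * ((1 + X) ^ (n - 2) + X ^ (n - 2)) :
    (ZMod 2)[X]) = X * (1 + X) ^ (n - 1) + X ^ (n - 1) + X ^ n := by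
  obtain ⟨d, rfl⟩ : ∃ d, n = d + 2 := ⟨n - 2, by omega⟩
  rw [show d + 2 - 2 = d by omega, show d + 2 - 1 = d + 1 by omega]
  ring

theorem bi1_coeff_T (n : ℕ) (i : ℕ) : (X * (1 + X) ^ (n - 1) + X ^ (n - 1) + X ^ n :
    (ZMod 2)[X]).coeff i = (if i = 0 then 0 else ((n - 1).choose (i - 1) : ZMod 2)) +
      (if i = n - 1 then 1 else 0) + (if i = n then 1 else 0) := by
  rw [coeff_add, coeff_add, coeff_X_pow, coeff_X_pow]
  congr 2
  cases i with
  | zero => simp
  | succ i =>
    rw [coeff_X_mul, coeff_one_add_X_pow]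
    simp

theorem twoD_int (n : ℕ) (hn : 3 ≤ n) (ho : Odd n) :
    ∃ P : ℤ[X], P.map (Int.castRingHom ℚ) = C (2 * (D n : ℚ)) * Polynomial.bernoulli n ∧
      P.map (Int.castRingHom (ZMod 2)) = X * (1 + X) * ((1 + X) ^ (n - 2) + X ^ (n - 2)) := by
  have key : ∀ i, ∃ a : ℤ, (a : ℚ) = 2 * (D n : ℚ) * (Polynomial.bernoulli n).coeff i ∧
      (a : ZMod 2) = (X * (1 + X) ^ (n - 1) + X ^ (n - 1) + X ^ n : (ZMod 2)[X]).coeff i := by
    intro i
    rw [bi1_coeff_T, Polynomial.coeff_bernoulli]
    have hD : ((D n : ℕ) : ZMod 2) = 1 := by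
      rw [ZMod.natCast_eq_one_iff_odd]
      exact D_odd n
    have h20 : (2 : ZMod 2) = 0 := by decide
    by_cases h1 : i ≤ n
    · rw [if_pos h1]
      obtain ⟨k, hk⟩ : ∃ k, n = i + k := ⟨n - i, by omega⟩
      have hki : n - i = k := by omega
      rw [hki]
      rcases Nat.lt_or_ge k 2 with h2 | h2
      · interval_cases k
        · refine ⟨2 * (D n : ℤ), ?_, ?_⟩
          · have : i = n := by omega
            subst this
            simp
          · have hi : i = n := by omega
            subst hi
            rw [if_neg (by omega), if_neg (by omega), if_pos rfl]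
            push_cast
            rw [h20, Nat.choose_self]
            simp
            decide
        · have hi : i = n - 1 := by omega
          refine ⟨-((D n : ℤ) * n), ?_, ?_⟩
          · rw [_root_.bernoulli_one, hi, Nat.choose_symm (by omega), Nat.choose_one_right]
            push_cast
            ring
          · rw [if_neg (by omega), if_pos hi, if_neg (by omega)]
            have h3 : (n - 1).choose (i - 1) = n - 1 := by
              rw [hi, Nat.choose_symm (by omega), Nat.choose_one_right]
            rw [h3]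
            have h4 : ((n : ℕ) : ZMod 2) = 1 := by
              rw [ZMod.natCast_eq_one_iff_odd]
              exact ho
            have h5 : ((n - 1 : ℕ) : ZMod 2) = 0 := by
              rw [ZMod.natCast_eq_zero_iff_even]
              obtain ⟨r, hr⟩ := ho
              exact ⟨r, by omega⟩
            rw [h5]
            push_cast
            rw [hD, h4]
            decide
      · rcases Nat.even_or_odd k with he | he
        · obtain ⟨m, hm⟩ := he
          have hm' : k = 2 * m := by omega
          obtain ⟨r, hr⟩ := ho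
          obtain ⟨t, ht⟩ := bi1_even n m (by omega) (by omega)
          have hch : n.choose i = n.choose (2 * m) := by
            rw [show i = n - 2 * m by omega]
            exact Nat.choose_symm (by omega)
          refine ⟨2 * t - (D n * n.choose (2 * m) : ℕ), ?_, ?_⟩
          · rw [ht, hm', hch]
          · rw [if_neg (by omega), if_neg (by omega), if_neg (by omega), ← hch]
            obtain ⟨j, rfl⟩ : ∃ j, i = j + 1 := ⟨i - 1, by omega⟩
            have h6 : n.choose (j + 1) = (n - 1).choose j + (n - 1).choose (j + 1) := by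
              conv_lhs => rw [show n = (n - 1) + 1 by omega]
              exact Nat.choose_succ_succ _ _
            have h7 : (((n - 1).choose (j + 1) : ℕ) : ZMod 2) = 0 := by
              rw [ZMod.natCast_eq_zero_iff_even]
              exact bi1_even_choose _ _ ⟨r, by omega⟩ ⟨r - m, by omega⟩
            have h8 : j + 1 - 1 = j := by omega
            rw [h8, h6]
            push_cast
            rw [h20, hD, h7]
            have h9 : ∀ x : ZMod 2, 0 * (t : ZMod 2) - 1 * (x + 0) = x + 0 + 0 := by
              intro x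
              rw [zero_mul]
              revert x
              decide
            exact h9 _
        · refine ⟨0, ?_, ?_⟩
          · rw [bernoulli_eq_zero_of_odd he (by omega)]
            simp
          · rw [if_neg (show i ≠ n - 1 by omega), if_neg (show i ≠ n by omega)]
            obtain ⟨r, hr⟩ := ho
            obtain ⟨s, hs⟩ := he
            split_ifs with h0
            · simp
            · have h7 : (((n - 1).choose (i - 1) : ℕ) : ZMod 2) = 0 := by
                rw [ZMod.natCast_eq_zero_iff_even]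
                exact bi1_even_choose _ _ ⟨r, by omega⟩ ⟨r - s - 1, by omega⟩
              rw [h7]
              simp
    · rw [if_neg h1]
      refine ⟨0, by simp, ?_⟩
      rw [if_neg (by omega), if_neg (by omega), if_neg (by omega),
        Nat.choose_eq_zero_of_lt (by omega)]
      simp
  choose a ha using key
  refine ⟨∑ i ∈ Finset.range (n + 1), monomial i (a i), ?_, ?_⟩
  · ext i
    rw [coeff_map, coeff_C_mul, finsetSum_coeff]
    simp only [coeff_monomial, Finset.sum_ite_eq', Finset.mem_range]
    split_ifs with h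
    · exact (ha i).1
    · rw [Polynomial.coeff_bernoulli, if_neg (by omega)]
      simp
  · rw [bi1_T n hn]
    ext i
    rw [coeff_map, finsetSum_coeff]
    simp only [coeff_monomial, Finset.sum_ite_eq', Finset.mem_range]
    split_ifs with h
    · exact (ha i).2
    · rw [bi1_coeff_T, if_neg (by omega), if_neg (by omega), if_neg (by omega),
        Nat.choose_eq_zero_of_lt (by omega)]
      simp

end Pool.Agent.H319B
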