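import Mathlib

set_option autoImplicit false

namespace Pool.Agent.H319B

open Polynomial

/-
PROOF. Let c > 0 be minimal (or any) with c g ∈ ℤ[X] primitive: G0 = primitive integer polynomial with G0.map = C c * g (c = leading
coefficient of G0, a positive integer, because g is monic; use IsLocalization.integerNormalization and primPart, or clear
denominators by hand and divide by the content); the same for h: H0.map = C c' * h. G0 H0 is primitive (Gauss), (G0 H0).map = C (c c') g h
and c c' P = d G0 H0 in ℤ[X]; comparing contents, c c' * content P = d, so c c' ∣ d. Take G = C (d / c) * G0.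
-/

theorem bi2_prim (g : ℚ[X]) (hg : g.Monic) : ∃ (G : ℤ[X]) (c : ℕ), 0 < c ∧ G.IsPrimitive ∧
    G.map (Int.castRingHom ℚ) = C (c : ℚ) * g := by
  obtain ⟨b, hb0, hb⟩ := IsLocalization.integerNormalization_spec (nonZeroDivisors ℤ) g
  set N : ℤ[X] := IsLocalization.integerNormalization (nonZeroDivisors ℤ) g with hN
  have hb0' : (b : ℤ) ≠ 0 := nonZeroDivisors.ne_zero hb0
  have hbQ : (b : ℚ) ≠ 0 := by exact_mod_cast hb0'
  have hmap : N.map (Int.castRingHom ℚ) = C (b : ℚ) * g := by
    have h1 : N.map (algebraMap ℤ ℚ) = b • g := hb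
    have h2 : (algebraMap ℤ ℚ) = Int.castRingHom ℚ := rfl
    rw [h2] at h1
    rw [h1, ← Polynomial.smul_eq_C_mul]
    ext n
    simp
  have hN0 : N ≠ 0 := by
    intro h0
    rw [h0, Polynomial.map_zero] at hmap
    have h3 : C (b : ℚ) * g ≠ 0 := mul_ne_zero (by simpa using hbQ) hg.ne_zero
    exact h3 hmap.symm
  have hc0 : N.content ≠ 0 := by
    intro h0
    exact hN0 (Polynomial.content_eq_zero_iff.mp h0)
  have hcQ : (N.content : ℚ) ≠ 0 := by exact_mod_cast hc0
  have hprim : N.primPart.IsPrimitive := N.isPrimitive_primPart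
  have hdec : N = C N.content * N.primPart := N.eq_C_content_mul_primPart
  have hmap2 : C (N.content : ℚ) * N.primPart.map (Int.castRingHom ℚ) = C (b : ℚ) * g := by
    rw [← hmap]
    conv_rhs => rw [hdec]
    rw [Polynomial.map_mul, Polynomial.map_C]
    rfl
  set a : ℤ := N.primPart.leadingCoeff with ha
  have ha0 : a ≠ 0 := by
    rw [ha, Ne, Polynomial.leadingCoeff_eq_zero]
    exact hprim.ne_zero
  have hlead : (N.content : ℚ) * (a : ℚ) = (b : ℚ) := by
    have h1 := congrArg Polynomial.leadingCoeff hmap2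
    rw [Polynomial.leadingCoeff_mul, Polynomial.leadingCoeff_mul, Polynomial.leadingCoeff_C,
      Polynomial.leadingCoeff_C, hg.leadingCoeff, mul_one,
      Polynomial.leadingCoeff_map_of_injective (RingHom.injective_int (Int.castRingHom ℚ))] at h1
    simpa using h1
  have hmap3 : N.primPart.map (Int.castRingHom ℚ) = C (a : ℚ) * g := by
    have h1 : C (N.content : ℚ) * N.primPart.map (Int.castRingHom ℚ) =
        C (N.content : ℚ) * (C (a : ℚ) * g) := by
      rw [hmap2, ← mul_assoc, ← C_mul, hlead]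
    exact mul_left_cancel₀ (by simpa using hcQ) h1
  rcases lt_or_gt_of_ne ha0 with hneg | hpos
  · refine ⟨-N.primPart, a.natAbs, Int.natAbs_pos.mpr ha0, ?_, ?_⟩
    · intro r hr
      exact hprim r ((dvd_neg).mp hr)
    · rw [Polynomial.map_neg, hmap3]
      have h2 : ((a.natAbs : ℕ) : ℚ) = -(a : ℚ) := by
        have h3 : ((a.natAbs : ℕ) : ℤ) = -a := by omega
        rw [← Int.cast_natCast (a.natAbs), h3, Int.cast_neg]
      rw [h2, C_neg, neg_mul]
  · refine ⟨N.primPart, a.natAbs, Int.natAbs_pos.mpr ha0, hprim, ?_⟩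
    rw [hmap3]
    have h2 : ((a.natAbs : ℕ) : ℚ) = (a : ℚ) := by
      have h3 : ((a.natAbs : ℕ) : ℤ) = a := by omega
      rw [← Int.cast_natCast (a.natAbs), h3]
    rw [h2]

theorem gauss_fac (P : ℤ[X]) (d : ℕ) (hd : 0 < d) (g h : ℚ[X]) (hg : g.Monic) (hh : h.Monic)
    (hP : P.map (Int.castRingHom ℚ) = C (d : ℚ) * (g * h)) :
    ∃ (G H : ℤ[X]) (c c' : ℕ), 0 < c ∧ 0 < c' ∧ c * c' = d ∧
      G.map (Int.castRingHom ℚ) = C (c : ℚ) * g ∧ H.map (Int.castRingHom ℚ) = C (c' : ℚ) * h := by
  obtain ⟨G0, c1, hc1, hG0, hG⟩ := bi2_prim g hg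
  obtain ⟨H0, c2, hc2, hH0, hH⟩ := bi2_prim h hh
  have hinj : Function.Injective (Polynomial.map (Int.castRingHom ℚ)) :=
    Polynomial.map_injective _ (RingHom.injective_int (Int.castRingHom ℚ))
  have hGH : (G0 * H0).IsPrimitive := hG0.mul hH0
  have h1 : C ((c1 * c2 : ℕ) : ℤ) * P = C (d : ℤ) * (G0 * H0) := by
    apply hinj
    rw [Polynomial.map_mul, Polynomial.map_mul, Polynomial.map_mul, hP, hG, hH, Polynomial.map_C,
      Polynomial.map_C]
    simp only [eq_intCast, Int.cast_natCast, Nat.cast_mul, Int.cast_mul, C_mul]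
    ring
  have h2 := congrArg Polynomial.content h1
  rw [Polynomial.content_C_mul, Polynomial.content_C_mul, hGH.content_eq_one, mul_one] at h2
  have h3 : ((c1 * c2 : ℕ) : ℤ) ∣ (d : ℤ) := by
    have h4 : normalize (((c1 * c2 : ℕ) : ℤ)) ∣ normalize (d : ℤ) := ⟨P.content, h2.symm⟩
    rw [normalize_dvd_iff, dvd_normalize_iff] at h4
    exact h4
  have h4 : c1 * c2 ∣ d := by exact_mod_cast h3
  obtain ⟨k, hk⟩ := h4
  have hk0 : 0 < k := by
    rcases Nat.eq_zero_or_pos k with h5 | h5
    · rw [h5, mul_zero] at hk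
      omega
    · exact h5
  refine ⟨C (k : ℤ) * G0, H0, k * c1, c2, Nat.mul_pos hk0 hc1, hc2, ?_, ?_, hH⟩
  · rw [hk]
    ring
  · rw [Polynomial.map_mul, hG, Polynomial.map_C]
    simp only [eq_intCast, Int.cast_natCast, Nat.cast_mul, C_mul]
    ring

end Pool.Agent.H319B
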