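import Mathlib

set_option autoImplicit false

namespace Pool.Agent.H319B

open Polynomial

/-
PROOF. For a polynomial Q put Q_r = Q.comp (C r * X), coefficient k of Q_r is coeff k of Q times r^k; M = Polynomial.mahlerMeasure
(file Analysis/Polynomial/MahlerMeasure). M(A_r) M(H_r) = M((A H)_r) ≤ L := ∑ ‖coeff (A H) k‖ r^k (mahlerMeasure_mul,
mahlerMeasure_le_sum_norm_coeff), M(A_r) ≥ ‖leadingCoeff A_r‖ = r^a, M(H_r) ≥ r^m (leadingCoeff_le_mahlerMeasure), a = deg A, m = deg H. So M(A_r) ≤ L/r^m,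
M(H_r) ≤ L/r^a. By norm_coeff_le_choose_mul_mahlerMeasure with index 1: ‖A'(0)‖ r ≤ a M(A_r) ≤ a L / r^m (for a = 0 both sides are 0),
‖H'(0)‖ r ≤ m L / r^a. Finally (A H)'(0) = A'(0) H(0) + A(0) H'(0).
-/

theorem bi4_deg (Q : ℂ[X]) (r : ℝ) (hr : 0 < r) : (Q.comp (C (r : ℂ) * X)).natDegree = Q.natDegree := by
  rw [natDegree_comp, natDegree_C_mul_X _ (by exact_mod_cast hr.ne'), mul_one]

theorem bi4_lead (Q : ℂ[X]) (hQ : Q.Monic) (r : ℝ) (hr : 0 < r) :
    r ^ Q.natDegree ≤ (Q.comp (C (r : ℂ) * X)).mahlerMeasure := by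
  have h1 := leadingCoeff_le_mahlerMeasure (Q.comp (C (r : ℂ) * X))
  have h2 : ‖(Q.comp (C (r : ℂ) * X)).leadingCoeff‖ = r ^ Q.natDegree := by
    rw [leadingCoeff, bi4_deg Q r hr, comp_C_mul_X_coeff, hQ.coeff_natDegree, one_mul, norm_pow,
      Complex.norm_real, Real.norm_eq_abs, abs_of_pos hr]
  rw [h2] at h1
  exact h1

theorem bi4_coeff (Q : ℂ[X]) (r : ℝ) (hr : 0 < r) :
    ‖(derivative Q).eval 0‖ * r ≤ Q.natDegree * (Q.comp (C (r : ℂ) * X)).mahlerMeasure := by
  have h1 := norm_coeff_le_choose_mul_mahlerMeasure 1 (Q.comp (C (r : ℂ) * X))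
  rw [bi4_deg Q r hr, comp_C_mul_X_coeff, Nat.choose_one_right, pow_one, norm_mul,
    Complex.norm_real, Real.norm_eq_abs, abs_of_pos hr] at h1
  have h2 : (derivative Q).eval 0 = Q.coeff 1 := by
    rw [← coeff_zero_eq_eval_zero, coeff_derivative]
    simp
  rw [h2]
  exact h1

theorem bi4_sum (Q : ℂ[X]) (r : ℝ) (hr : 0 < r) :
    (Q.comp (C (r : ℂ) * X)).mahlerMeasure ≤
      ∑ k ∈ Finset.range (Q.natDegree + 1), ‖Q.coeff k‖ * r ^ k := by
  refine (mahlerMeasure_le_sum_norm_coeff _).trans ?_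
  rw [sum_over_range _ (by simp), bi4_deg Q r hr]
  apply le_of_eq
  apply Finset.sum_congr rfl
  intro k _
  rw [comp_C_mul_X_coeff, norm_mul, norm_pow, Complex.norm_real, Real.norm_eq_abs, abs_of_pos hr]

theorem mahler_ineq (A H : ℂ[X]) (hA : A.Monic) (hH : H.Monic) (r : ℝ) (hr : 0 < r) :
    ‖(derivative (A * H)).eval 0‖ ≤ (A.natDegree + H.natDegree : ℕ) *
      (∑ k ∈ Finset.range (A.natDegree + H.natDegree + 1), ‖(A * H).coeff k‖ * r ^ k) *
      (‖H.eval 0‖ / r ^ (H.natDegree + 1) + ‖A.eval 0‖ / r ^ (A.natDegree + 1)) := by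
  have hdeg : (A * H).natDegree = A.natDegree + H.natDegree := hA.natDegree_mul hH
  have hL := bi4_sum (A * H) r hr
  rw [hdeg, mul_comp, mahlerMeasure_mul] at hL
  set L : ℝ := ∑ k ∈ Finset.range (A.natDegree + H.natDegree + 1), ‖(A * H).coeff k‖ * r ^ k with hLdef
  set MA := (A.comp (C (r : ℂ) * X)).mahlerMeasure with hMA
  set MH := (H.comp (C (r : ℂ) * X)).mahlerMeasure with hMH
  have hA1 : r ^ A.natDegree ≤ MA := bi4_lead A hA r hr
  have hH1 : r ^ H.natDegree ≤ MH := bi4_lead H hH r hr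
  have hA2 := bi4_coeff A r hr
  have hH2 := bi4_coeff H r hr
  rw [← hMA] at hA2
  rw [← hMH] at hH2
  have hMA0 : 0 ≤ MA := mahlerMeasure_nonneg _
  have hMH0 : 0 ≤ MH := mahlerMeasure_nonneg _
  have hA3 : MA * r ^ H.natDegree ≤ L := (mul_le_mul_of_nonneg_left hH1 hMA0).trans hL
  have hH3 : r ^ A.natDegree * MH ≤ L := (mul_le_mul_of_nonneg_right hA1 hMH0).trans hL
  have hL0 : 0 ≤ L := le_trans (by positivity) hA3
  have hA4 : ‖(derivative A).eval 0‖ ≤ A.natDegree * L / r ^ (H.natDegree + 1) := by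
    rw [le_div_iff₀ (by positivity)]
    calc ‖(derivative A).eval 0‖ * r ^ (H.natDegree + 1)
        = (‖(derivative A).eval 0‖ * r) * r ^ H.natDegree := by ring
      _ ≤ (A.natDegree * MA) * r ^ H.natDegree := mul_le_mul_of_nonneg_right hA2 (by positivity)
      _ = A.natDegree * (MA * r ^ H.natDegree) := by ring
      _ ≤ A.natDegree * L := mul_le_mul_of_nonneg_left hA3 (by positivity)
  have hH4 : ‖(derivative H).eval 0‖ ≤ H.natDegree * L / r ^ (A.natDegree + 1) := by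
    rw [le_div_iff₀ (by positivity)]
    calc ‖(derivative H).eval 0‖ * r ^ (A.natDegree + 1)
        = (‖(derivative H).eval 0‖ * r) * r ^ A.natDegree := by ring
      _ ≤ (H.natDegree * MH) * r ^ A.natDegree := mul_le_mul_of_nonneg_right hH2 (by positivity)
      _ = H.natDegree * (r ^ A.natDegree * MH) := by ring
      _ ≤ H.natDegree * L := mul_le_mul_of_nonneg_left hH3 (by positivity)
  rw [derivative_mul, eval_add, eval_mul, eval_mul]
  refine (norm_add_le _ _).trans ?_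
  rw [norm_mul, norm_mul]
  have h1 : ‖(derivative A).eval 0‖ * ‖H.eval 0‖ ≤
      (A.natDegree + H.natDegree : ℕ) * L * (‖H.eval 0‖ / r ^ (H.natDegree + 1)) := by
    calc ‖(derivative A).eval 0‖ * ‖H.eval 0‖
        ≤ (A.natDegree * L / r ^ (H.natDegree + 1)) * ‖H.eval 0‖ :=
          mul_le_mul_of_nonneg_right hA4 (norm_nonneg _)
      _ = A.natDegree * (L * (‖H.eval 0‖ / r ^ (H.natDegree + 1))) := by ring
      _ ≤ ((A.natDegree + H.natDegree : ℕ) : ℝ) * (L * (‖H.eval 0‖ / r ^ (H.natDegree + 1))) := by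
          apply mul_le_mul_of_nonneg_right _ (by positivity)
          push_cast
          linarith [Nat.cast_nonneg (α := ℝ) H.natDegree]
      _ = _ := by ring
  have h2 : ‖A.eval 0‖ * ‖(derivative H).eval 0‖ ≤
      (A.natDegree + H.natDegree : ℕ) * L * (‖A.eval 0‖ / r ^ (A.natDegree + 1)) := by
    calc ‖A.eval 0‖ * ‖(derivative H).eval 0‖
        ≤ ‖A.eval 0‖ * (H.natDegree * L / r ^ (A.natDegree + 1)) :=
          mul_le_mul_of_nonneg_left hH4 (norm_nonneg _)
      _ = H.natDegree * (L * (‖A.eval 0‖ / r ^ (A.natDegree + 1))) := by ring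
      _ ≤ ((A.natDegree + H.natDegree : ℕ) : ℝ) * (L * (‖A.eval 0‖ / r ^ (A.natDegree + 1))) := by
          apply mul_le_mul_of_nonneg_right _ (by positivity)
          push_cast
          linarith [Nat.cast_nonneg (α := ℝ) A.natDegree]
      _ = _ := by ring
  rw [mul_add]
  exact add_le_add h1 h2

end Pool.Agent.H319B
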