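import Mathlib

set_option autoImplicit false

namespace Pool.Agent.H319B

open Polynomial

/-
PROOF. For even k = 2 j ≥ 2: ζ(k) = (-1)^(j+1) 2^(k-1) π^k B_k / k! (hasSum_zeta_nat or riemannZeta_two_mul_nat), so
|B_k| = 2 ζ(k) k!/(2π)^k with 1 ≤ ζ(k) = ∑ 1/m^k ≤ ∑ 1/m^2 = π²/6 < 2. For odd k ≥ 3, B_k = 0.
-/

theorem bi5_key (j : ℕ) (hj : j ≠ 0) :
    ∃ S : ℝ, 1 ≤ S ∧ S ≤ 2 ∧
      |((_root_.bernoulli (2 * j) : ℚ) : ℝ)| = 2 * S * (2 * j).factorial / (2 * Real.pi) ^ (2 * j) := by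
  have hs := hasSum_zeta_nat hj
  have hpi := Real.pi_pos
  set S : ℝ := (-1 : ℝ) ^ (j + 1) * (2 : ℝ) ^ (2 * j - 1) * Real.pi ^ (2 * j) *
        _root_.bernoulli (2 * j) / (2 * j).factorial with hS
  have h1 : 1 ≤ S := by
    have := le_hasSum hs 1 (fun i _ => by positivity)
    simpa using this
  have h2 : S ≤ Real.pi ^ 2 / 6 := by
    refine hasSum_le (fun n => ?_) hs hasSum_zeta_two
    rcases Nat.eq_zero_or_pos n with h0 | hn
    · subst h0
      have : (2 * j) ≠ 0 := by omega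
      simp [this]
    · have hn1 : (1 : ℝ) ≤ n := by exact_mod_cast hn
      apply one_div_le_one_div_of_le (by positivity)
      exact pow_le_pow_right₀ hn1 (by omega)
  have h3 : S ≤ 2 := by
    have : Real.pi < 3.15 := Real.pi_lt_d2
    nlinarith
  refine ⟨S, h1, h3, ?_⟩
  have hS0 : 0 < S := by linarith
  have habs : S = (2 : ℝ) ^ (2 * j - 1) * Real.pi ^ (2 * j) *
        |((_root_.bernoulli (2 * j) : ℚ) : ℝ)| / (2 * j).factorial := by
    have : |S| = S := abs_of_pos hS0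
    rw [← this, hS, abs_div, abs_mul, abs_mul, abs_mul, abs_pow, abs_neg, abs_one, one_pow, one_mul,
      abs_of_pos (show (0 : ℝ) < 2 ^ (2 * j - 1) by positivity),
      abs_of_pos (show (0 : ℝ) < Real.pi ^ (2 * j) by positivity),
      abs_of_pos (show (0 : ℝ) < ((2 * j).factorial : ℝ) by positivity)]
  have h2pow : (2 : ℝ) ^ (2 * j) = 2 * 2 ^ (2 * j - 1) := by
    rw [← pow_succ']
    congr 1
    omega
  rw [habs, mul_pow, h2pow]
  have hf : ((2 * j).factorial : ℝ) ≠ 0 := by positivity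
  field_simp

theorem bern_upper (k : ℕ) (hk : 2 ≤ k) :
    |((_root_.bernoulli k : ℚ) : ℝ)| ≤ 4 * k.factorial / (2 * Real.pi) ^ k := by
  have hpi := Real.pi_pos
  rcases Nat.even_or_odd' k with ⟨j, rfl | rfl⟩
  · obtain ⟨S, h1, h2, h3⟩ := bi5_key j (by omega)
    rw [h3]
    apply div_le_div_of_nonneg_right _ (by positivity)
    have : (0 : ℝ) ≤ ((2 * j).factorial : ℝ) := by positivity
    nlinarith
  · rw [bernoulli_eq_zero_of_odd ⟨j, rfl⟩ (by omega)]
    simp only [Rat.cast_zero, abs_zero]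
    positivity

theorem bern_lower (k : ℕ) (hk : 2 ≤ k) (he : Even k) :
    2 * k.factorial / (2 * Real.pi) ^ k ≤ |((_root_.bernoulli k : ℚ) : ℝ)| := by
  have hpi := Real.pi_pos
  obtain ⟨j, hj⟩ := he
  have hj' : k = 2 * j := by omega
  subst hj'
  obtain ⟨S, h1, h2, h3⟩ := bi5_key j (by omega)
  rw [h3]
  apply div_le_div_of_nonneg_right _ (by positivity)
  have : (0 : ℝ) ≤ ((2 * j).factorial : ℝ) := by positivity
  nlinarith

end Pool.Agent.H319B
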