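import Mathlib
import Pool.Agent.H319B.BI5

set_option autoImplicit false

namespace Pool.Agent.H319B

open Polynomial


/-
PROOF. (a) both sides are the k-th Taylor coefficient at 2 (Polynomial.taylor_coeff, hasseDeriv, and derivative_bernoulli iterated:
the k-th derivative of B_n is n!/(n-k)! B_(n-k)); or induction on k for all n with derivative.
(b) B_j(2) = B_j(1) + j (bernoulli_eval_one_add; for j = 0: B_0 = 1), B_j(1) = bernoulli' j = bernoulli j for j ≥ 2; j = 0: 1 ≤ 4;
j = 1: B_1(2) = 3/2 ≤ 4/(2π) + 1 (π < 4).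
(c) by (b): ∑_k C(n,k) 4 (n-k)!/(2π)^(n-k) r^k = (4 n!/(2π)^n) ∑_k (2π r)^k/k! ≤ 4 n! e^(2πr)/(2π)^n (Real.sum_le_exp_of_nonneg) and
∑_k C(n,k) (n-k) r^k ≤ n (1+r)^n.
(d) B_(n-1)(2) = B_(n-1)(1) + (n-1)·1, lower bound |B_(n-1)| - n.
-/

theorem bi6_iter (n k : ℕ) : derivative^[k] (Polynomial.bernoulli n) =
    C ((n.descFactorial k : ℕ) : ℚ) * Polynomial.bernoulli (n - k) := by
  induction k with
  | zero => simp
  | succ k ih =>
    rw [Function.iterate_succ_apply', ih, derivative_C_mul, derivative_bernoulli,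
      Nat.descFactorial_succ]
    have e : n - k - 1 = n - (k + 1) := by omega
    rw [e, ← Polynomial.C_eq_natCast (n - k)]
    push_cast
    rw [C_mul]
    ring

theorem coeff_shift (n k : ℕ) (hk : k ≤ n) :
    ((Polynomial.bernoulli n).comp (X + C 2)).coeff k =
      (n.choose k : ℚ) * (Polynomial.bernoulli (n - k)).eval 2 := by
  rw [← taylor_apply, taylor_coeff]
  have h1 : (k.factorial : ℚ) * (hasseDeriv k (Polynomial.bernoulli n)).eval 2 =
      (derivative^[k] (Polynomial.bernoulli n)).eval 2 := by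
    rw [← factorial_smul_hasseDeriv]
    simp
  rw [bi6_iter, eval_mul, eval_C, Nat.descFactorial_eq_factorial_mul_choose] at h1
  have h2 : (k.factorial : ℚ) ≠ 0 := by exact_mod_cast Nat.factorial_ne_zero k
  push_cast at h1
  rw [mul_assoc] at h1
  exact mul_left_cancel₀ h2 h1

theorem bi6_two (j : ℕ) : (Polynomial.bernoulli j).eval 2 = bernoulli' j + j := by
  have h := bernoulli_eval_one_add j 1
  rw [show (1 : ℚ) + 1 = 2 by norm_num, one_pow, mul_one, bernoulli_eval_one] at h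
  exact h

theorem bern_two_upper (j : ℕ) :
    |(((Polynomial.bernoulli j).eval 2 : ℚ) : ℝ)| ≤ 4 * j.factorial / (2 * Real.pi) ^ j + j := by
  rw [bi6_two]
  rcases Nat.lt_or_ge j 2 with hj | hj
  · interval_cases j
    · norm_num [bernoulli'_zero]
    · have h1 : (((bernoulli' 1 + ((1 : ℕ) : ℚ) : ℚ)) : ℝ) = 3 / 2 := by
        rw [bernoulli'_one]
        norm_num
      rw [h1, abs_of_pos (by norm_num)]
      have hp := Real.pi_pos
      have h4 := Real.pi_lt_four
      have h5 : (1 : ℝ) / 2 ≤ 4 * (Nat.factorial 1 : ℝ) / (2 * Real.pi) ^ 1 := by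
        rw [pow_one, Nat.factorial_one, Nat.cast_one, mul_one, le_div_iff₀ (by positivity)]
        linarith
      push_cast at h5 ⊢
      linarith
  · have h := bern_upper j hj
    rw [_root_.bernoulli_eq_bernoulli'_of_ne_one (by omega)] at h
    push_cast
    refine (abs_add_le _ _).trans ?_
    rw [abs_of_nonneg (Nat.cast_nonneg (α := ℝ) j)]
    linarith

theorem L_bound (n : ℕ) (r : ℝ) (hr : 0 ≤ r) :
    ∑ k ∈ Finset.range (n + 1), (n.choose k : ℝ) *
        |(((Polynomial.bernoulli (n - k)).eval 2 : ℚ) : ℝ)| * r ^ k ≤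
      4 * n.factorial * Real.exp (2 * Real.pi * r) / (2 * Real.pi) ^ n + n * (1 + r) ^ n := by
  have hp := Real.pi_pos
  have h1 : ∑ k ∈ Finset.range (n + 1), (n.choose k : ℝ) *
      |(((Polynomial.bernoulli (n - k)).eval 2 : ℚ) : ℝ)| * r ^ k ≤
      ∑ k ∈ Finset.range (n + 1), (4 * n.factorial / (2 * Real.pi) ^ n *
        ((2 * Real.pi * r) ^ k / k.factorial) + n * ((n.choose k : ℝ) * r ^ k)) := by
    refine Finset.sum_le_sum fun k hk => ?_
    have hkn : k ≤ n := Nat.lt_succ_iff.1 (Finset.mem_range.1 hk)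
    have h2 := bern_two_upper (n - k)
    have h3 : (n.choose k : ℝ) * |(((Polynomial.bernoulli (n - k)).eval 2 : ℚ) : ℝ)| * r ^ k ≤
        (n.choose k : ℝ) * (4 * (n - k).factorial / (2 * Real.pi) ^ (n - k) + ((n - k : ℕ) : ℝ)) *
          r ^ k := by
      gcongr
    refine h3.trans ?_
    have h4 : (n.choose k : ℝ) * (4 * (n - k).factorial / (2 * Real.pi) ^ (n - k)) * r ^ k =
        4 * n.factorial / (2 * Real.pi) ^ n * ((2 * Real.pi * r) ^ k / k.factorial) := by
      have h5 : ((n.choose k * k.factorial * (n - k).factorial : ℕ) : ℝ) = n.factorial := by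
        rw [Nat.choose_mul_factorial_mul_factorial hkn]
      have h6 : (2 * Real.pi) ^ n = (2 * Real.pi) ^ (n - k) * (2 * Real.pi) ^ k := by
        rw [← pow_add, Nat.sub_add_cancel hkn]
      rw [← h5, h6, mul_pow (2 * Real.pi) r k]
      push_cast
      have h7 : (k.factorial : ℝ) ≠ 0 := by exact_mod_cast Nat.factorial_ne_zero k
      field_simp
    have h5 : (n.choose k : ℝ) * ((n - k : ℕ) : ℝ) * r ^ k ≤ n * ((n.choose k : ℝ) * r ^ k) := by
      have h6 : ((n - k : ℕ) : ℝ) ≤ n := by exact_mod_cast Nat.sub_le n k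
      have h7 : 0 ≤ (n.choose k : ℝ) * r ^ k := by positivity
      nlinarith
    rw [mul_add, add_mul, h4]
    linarith
  refine h1.trans ?_
  rw [Finset.sum_add_distrib, ← Finset.mul_sum, ← Finset.mul_sum]
  have h2 := Real.sum_le_exp_of_nonneg (show 0 ≤ 2 * Real.pi * r by positivity) (n + 1)
  have h3 : ∑ k ∈ Finset.range (n + 1), (n.choose k : ℝ) * r ^ k = (1 + r) ^ n := by
    rw [add_comm 1 r, add_pow]
    refine Finset.sum_congr rfl fun k _ => ?_
    rw [one_pow, mul_one, mul_comm]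
  rw [h3]
  have h4 : 4 * (n.factorial : ℝ) / (2 * Real.pi) ^ n *
      ∑ k ∈ Finset.range (n + 1), (2 * Real.pi * r) ^ k / k.factorial ≤
      4 * (n.factorial : ℝ) / (2 * Real.pi) ^ n * Real.exp (2 * Real.pi * r) :=
    mul_le_mul_of_nonneg_left h2 (by positivity)
  have h5 : 4 * (n.factorial : ℝ) / (2 * Real.pi) ^ n * Real.exp (2 * Real.pi * r) =
      4 * n.factorial * Real.exp (2 * Real.pi * r) / (2 * Real.pi) ^ n := by ring
  linarith

theorem bern_two_lower (n : ℕ) (hn : 3 ≤ n) :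
    |((_root_.bernoulli (n - 1) : ℚ) : ℝ)| - n ≤
      |(((Polynomial.bernoulli (n - 1)).eval 2 : ℚ) : ℝ)| := by
  rw [bi6_two, _root_.bernoulli_eq_bernoulli'_of_ne_one (show n - 1 ≠ 1 by omega)]
  push_cast
  have h1 : ((n - 1 : ℕ) : ℝ) ≤ n := by exact_mod_cast Nat.sub_le n 1
  have h2 := abs_sub_abs_le_abs_sub ((bernoulli' (n - 1) : ℚ) : ℝ) (-((n - 1 : ℕ) : ℝ))
  rw [sub_neg_eq_add, abs_neg, abs_of_nonneg (Nat.cast_nonneg (α := ℝ) (n - 1))] at h2
  linarith

end Pool.Agent.H319B
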