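import Mathlib
import Pool.Agent.H319B.Basic
import Pool.Agent.H319B.BI1
import Pool.Agent.H319B.BI2
import Pool.Agent.H319B.BI4
import Pool.Agent.H319B.BI6

set_option autoImplicit false

namespace Pool.Agent.H319B

open Polynomial


/-- values at `2` of monic rational factors are not small -/
theorem eval_two_lower (n : ℕ) (hn : 3 ≤ n) (ho : Odd n) (A H : ℚ[X]) (hA : A.Monic) (hH : H.Monic)
    (hAH : A * H = Polynomial.bernoulli n) : |H.eval 2| ≤ 2 * (D n : ℚ) * n := by
  obtain ⟨P, hP, -⟩ := twoD_int n hn ho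
  have hD : 0 < D n := (D_odd n).pos
  have hP' : P.map (Int.castRingHom ℚ) = C (((2 * D n : ℕ) : ℚ)) * (A * H) := by
    rw [hP, hAH]; push_cast; rfl
  obtain ⟨G, -, c, c', hc, hc', hcc, hG, -⟩ := gauss_fac P (2 * D n) (by omega) A H hA hH hP'
  have hval : A.eval 2 * H.eval 2 = n := by
    rw [← eval_mul, hAH, bern_two n hn ho]
  have hn0 : (n : ℚ) ≠ 0 := by
    have : n ≠ 0 := by omega
    exact_mod_cast this
  have hA2 : A.eval 2 ≠ 0 := by
    intro h0
    rw [h0, zero_mul] at hval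
    exact hn0 hval.symm
  have hGe : ((G.eval 2 : ℤ) : ℚ) = (c : ℚ) * A.eval 2 := by
    have := congrArg (eval (2 : ℚ)) hG
    rw [eval_mul, eval_C] at this
    rw [← this]
    have h2 : (2 : ℚ) = (Int.castRingHom ℚ) (2 : ℤ) := by simp
    rw [h2, eval_map_apply]
    simp
  have hG0 : G.eval 2 ≠ 0 := by
    intro h0
    rw [h0] at hGe
    have hc0 : (c : ℚ) ≠ 0 := by
      have : c ≠ 0 := by omega
      exact_mod_cast this
    exact (mul_ne_zero hc0 hA2) (by rw [← hGe]; simp)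
  have h1 : (1 : ℚ) ≤ |((G.eval 2 : ℤ) : ℚ)| := by
    rw [← Int.cast_abs]
    exact_mod_cast Int.one_le_abs hG0
  rw [hGe, abs_mul, abs_of_nonneg (Nat.cast_nonneg c)] at h1
  have hcle : (c : ℚ) ≤ 2 * D n := by
    have : c ∣ 2 * D n := ⟨c', hcc.symm⟩
    exact_mod_cast Nat.le_of_dvd (by omega) this
  have h2 : |A.eval 2| * |H.eval 2| = n := by
    rw [← abs_mul, hval, abs_of_nonneg (Nat.cast_nonneg n)]
  have h3 : |H.eval 2| ≤ (c : ℚ) * |A.eval 2| * |H.eval 2| :=
    le_mul_of_one_le_left (abs_nonneg _) h1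
  calc |H.eval 2| ≤ (c : ℚ) * |A.eval 2| * |H.eval 2| := h3
    _ = c * n := by rw [mul_assoc, h2]
    _ ≤ 2 * (D n : ℚ) * n := mul_le_mul_of_nonneg_right hcle (Nat.cast_nonneg n)

/-- the Mahler measure inequality for the shifted Bernoulli polynomial -/
theorem main_ineq (n : ℕ) (hn : 3 ≤ n) (ho : Odd n) (A H : ℚ[X]) (hA : A.Monic) (hH : H.Monic)
    (hAH : A * H = Polynomial.bernoulli n) (r : ℝ) (hr : 0 < r) :
    |(((Polynomial.bernoulli (n - 1)).eval 2 : ℚ) : ℝ)| ≤
      (4 * n.factorial * Real.exp (2 * Real.pi * r) / (2 * Real.pi) ^ n + n * (1 + r) ^ n) *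
      (2 * (D n : ℝ) * n) * (1 / r ^ (H.natDegree + 1) + 1 / r ^ (A.natDegree + 1)) := by
  set φ : ℚ →+* ℂ := algebraMap ℚ ℂ with hφ
  set A1 : ℂ[X] := (A.map φ).comp (X + C 2) with hA1
  set H1 : ℂ[X] := (H.map φ).comp (X + C 2) with hH1
  have hA1m : A1.Monic := (hA.map φ).comp_X_add_C 2
  have hH1m : H1.Monic := (hH.map φ).comp_X_add_C 2
  have hA1d : A1.natDegree = A.natDegree := by
    rw [hA1, natDegree_comp, natDegree_X_add_C, mul_one, natDegree_map]
  have hH1d : H1.natDegree = H.natDegree := by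
    rw [hH1, natDegree_comp, natDegree_X_add_C, mul_one, natDegree_map]
  have hsum : A.natDegree + H.natDegree = n := by
    rw [← hA.natDegree_mul hH, hAH, bern_natDegree]
  have hprod : A1 * H1 = ((Polynomial.bernoulli n).comp (X + C 2)).map φ := by
    rw [hA1, hH1, ← mul_comp, ← Polynomial.map_mul, hAH, map_comp]
    simp
  have hm := mahler_ineq A1 H1 hA1m hH1m r hr
  rw [hA1d, hH1d, hsum] at hm
  have hder : ‖(derivative (A1 * H1)).eval 0‖ =
      n * |(((Polynomial.bernoulli (n - 1)).eval 2 : ℚ) : ℝ)| := by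
    have hn1 : 1 ≤ n := by omega
    have e1 : (derivative (A1 * H1)).eval 0 = (A1 * H1).coeff 1 := by
      rw [← coeff_zero_eq_eval_zero, coeff_derivative]
      simp
    rw [e1, hprod, coeff_map, coeff_shift n 1 hn1, Nat.choose_one_right, hφ]
    rw [map_mul, norm_mul]
    simp
  rw [hder] at hm
  have hL : ∑ k ∈ Finset.range (n + 1), ‖(A1 * H1).coeff k‖ * r ^ k ≤
      4 * n.factorial * Real.exp (2 * Real.pi * r) / (2 * Real.pi) ^ n + n * (1 + r) ^ n := by
    refine le_trans (le_of_eq ?_) (L_bound n r hr.le)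
    refine Finset.sum_congr rfl (fun k hk => ?_)
    rw [Finset.mem_range] at hk
    rw [hprod, coeff_map, coeff_shift n k (by omega), hφ, map_mul, norm_mul]
    congr 2
    · simp
    · simp
  have hnpos : (0 : ℝ) < n := by
    have : 0 < n := by omega
    exact_mod_cast this
  have hH2 : ‖H1.eval 0‖ ≤ 2 * (D n : ℝ) * n := by
    have h := eval_two_lower n hn ho A H hA hH hAH
    have e : H1.eval 0 = φ (H.eval 2) := by
      rw [hH1, eval_comp]
      simp only [eval_add, eval_X, eval_C, zero_add]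
      have h2 : (2 : ℂ) = φ 2 := by simp
      rw [h2, eval_map_apply]
    rw [e, hφ]
    have e2 : ‖(algebraMap ℚ ℂ) (H.eval 2)‖ = ((|H.eval 2| : ℚ) : ℝ) := by
      simp
    rw [e2]
    exact_mod_cast h
  have hA2 : ‖A1.eval 0‖ ≤ 2 * (D n : ℝ) * n := by
    have h := eval_two_lower n hn ho H A hH hA (by rw [mul_comm]; exact hAH)
    have e : A1.eval 0 = φ (A.eval 2) := by
      rw [hA1, eval_comp]
      simp only [eval_add, eval_X, eval_C, zero_add]
      have h2 : (2 : ℂ) = φ 2 := by simp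
      rw [h2, eval_map_apply]
    rw [e, hφ]
    have e2 : ‖(algebraMap ℚ ℂ) (A.eval 2)‖ = ((|A.eval 2| : ℚ) : ℝ) := by
      simp
    rw [e2]
    exact_mod_cast h
  have hB : ‖H1.eval 0‖ / r ^ (H.natDegree + 1) + ‖A1.eval 0‖ / r ^ (A.natDegree + 1) ≤
      (2 * (D n : ℝ) * n) * (1 / r ^ (H.natDegree + 1) + 1 / r ^ (A.natDegree + 1)) := by
    rw [mul_add, mul_one_div, mul_one_div]
    exact add_le_add (div_le_div_of_nonneg_right hH2 (by positivity))
      (div_le_div_of_nonneg_right hA2 (by positivity))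
  have hLn : 0 ≤ 4 * (n.factorial : ℝ) * Real.exp (2 * Real.pi * r) / (2 * Real.pi) ^ n + n * (1 + r) ^ n := by
    positivity
  have h3 : (n : ℝ) * |(((Polynomial.bernoulli (n - 1)).eval 2 : ℚ) : ℝ)| ≤
      n * ((4 * n.factorial * Real.exp (2 * Real.pi * r) / (2 * Real.pi) ^ n + n * (1 + r) ^ n) *
      ((2 * (D n : ℝ) * n) * (1 / r ^ (H.natDegree + 1) + 1 / r ^ (A.natDegree + 1)))) := by
    refine hm.trans ?_
    rw [mul_assoc]
    refine mul_le_mul_of_nonneg_left ?_ hnpos.le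
    exact mul_le_mul hL hB (by positivity) hLn
  have h4 := le_of_mul_le_mul_left h3 hnpos
  rw [mul_assoc]
  exact h4

end Pool.Agent.H319B
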