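import Mathlib

set_option autoImplicit false

namespace Pool.Agent.H319B

open Polynomial Filter

/-- `(1 + √n)^n n ≤ n!/(2π)^n` for `n` large -/
theorem ev1 : ∀ᶠ n : ℕ in atTop, (n : ℝ) * (1 + Real.sqrt n) ^ n ≤ n.factorial / (2 * Real.pi) ^ n := by
  filter_upwards [eventually_ge_atTop 20000] with n hn
  have hn' : (20000 : ℝ) ≤ n := by exact_mod_cast hn
  have hn0 : (0 : ℝ) < n := by linarith
  have hs : (141 : ℝ) ≤ Real.sqrt n := Real.le_sqrt_of_sq_le (by norm_num; linarith)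
  have hss : Real.sqrt n * Real.sqrt n = n := Real.mul_self_sqrt hn0.le
  have hpi : (0 : ℝ) < 2 * Real.pi := by positivity
  rw [le_div_iff₀ (pow_pos hpi n)]
  have hfac : (n : ℝ) ^ n / n.factorial ≤ Real.exp n := Real.pow_div_factorial_le_exp n hn0.le n
  have hfac' : (n : ℝ) ^ n ≤ Real.exp n * n.factorial := by
    rw [div_le_iff₀ (by positivity)] at hfac
    exact hfac
  -- n (1+√n)^n (2π)^n e^n ≤ n^n
  have hkey : (n : ℝ) * (1 + Real.sqrt n) ^ n * (2 * Real.pi) ^ n * Real.exp n ≤ (n : ℝ) ^ n := by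
    have e1 : Real.exp n = Real.exp 1 ^ n := by
      rw [← Real.exp_nat_mul, mul_one]
    have h1 : (1 + Real.sqrt n) * (2 * Real.pi) * Real.exp 1 ≤ n / 2 := by
      have hpi' : Real.pi < 3.15 := Real.pi_lt_d2
      have he : Real.exp 1 < 2.7182818286 := Real.exp_one_lt_d9
      have h2 : (2 * Real.pi) * Real.exp 1 ≤ 17.2 := by nlinarith [Real.pi_pos, Real.exp_pos 1]
      have h3 : (1 + Real.sqrt n) * (2 * Real.pi) * Real.exp 1 ≤ (1 + Real.sqrt n) * 17.2 := by
        rw [mul_assoc]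
        exact mul_le_mul_of_nonneg_left h2 (by linarith)
      nlinarith
    have h2 : (n : ℝ) ≤ 2 ^ n := by
      exact_mod_cast (Nat.lt_two_pow_self (n := n)).le
    calc (n : ℝ) * (1 + Real.sqrt n) ^ n * (2 * Real.pi) ^ n * Real.exp n
        = n * ((1 + Real.sqrt n) * (2 * Real.pi) * Real.exp 1) ^ n := by
          rw [e1, mul_pow ((1 + Real.sqrt n) * (2 * Real.pi)), mul_pow (1 + Real.sqrt n)]; ring
      _ ≤ 2 ^ n * (n / 2) ^ n := by
          refine mul_le_mul h2 (pow_le_pow_left₀ (by positivity) h1 n) (by positivity) (by positivity)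
      _ = (n : ℝ) ^ n := by
          rw [← mul_pow]; congr 1; ring
  have h5 : (n : ℝ) * (1 + Real.sqrt n) ^ n * (2 * Real.pi) ^ n * Real.exp n ≤
      n.factorial * Real.exp n := by
    calc _ ≤ (n : ℝ) ^ n := hkey
      _ ≤ _ := by rw [mul_comm (n.factorial : ℝ)]; exact hfac'
  exact le_of_mul_le_mul_right h5 (Real.exp_pos _)

/-- `n ≤ (n-1)!/(2π)^(n-1)` for `n` large -/
theorem ev2 : ∀ᶠ n : ℕ in atTop, (n : ℝ) ≤ (n - 1).factorial / (2 * Real.pi) ^ (n - 1) := by
  have h := FloorSemiring.tendsto_pow_div_factorial_atTop (4 * Real.pi)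
  have h2 : ∀ᶠ k : ℕ in atTop, (4 * Real.pi) ^ k / k.factorial < 1 / 2 := by
    exact (h.eventually (gt_mem_nhds (by norm_num)))
  have h3 : Tendsto (fun n : ℕ => n - 1) atTop atTop := tendsto_sub_atTop_nat 1
  filter_upwards [h3.eventually h2, eventually_ge_atTop 1] with n hn hn1
  have hpi : (0 : ℝ) < 2 * Real.pi := by positivity
  rw [le_div_iff₀ (pow_pos hpi _)]
  rw [div_lt_iff₀ (by positivity)] at hn
  have h4 : (n : ℝ) ≤ 2 * 2 ^ (n - 1) := by
    have : n ≤ 2 ^ n := (Nat.lt_two_pow_self (n := n)).le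
    have h5 : 2 ^ n = 2 * 2 ^ (n - 1) := by
      rw [← pow_succ', Nat.sub_add_cancel hn1]
    rw [h5] at this
    exact_mod_cast this
  calc (n : ℝ) * (2 * Real.pi) ^ (n - 1) ≤ 2 * 2 ^ (n - 1) * (2 * Real.pi) ^ (n - 1) :=
        mul_le_mul_of_nonneg_right h4 (by positivity)
    _ = 2 * (4 * Real.pi) ^ (n - 1) := by
        rw [mul_assoc, ← mul_pow]; congr 2; ring
    _ ≤ (n - 1).factorial := by linarith

/-- the final comparison -/
theorem ev3 (c : ℝ) (hc : 1 < c) : ∀ᶠ n : ℕ in atTop,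
    Real.log 4 + (Real.sqrt n * Real.log n / 2 + 4 * Real.sqrt n + 1) + 2 * Real.log n +
      2 * Real.pi * Real.sqrt n < c * Real.sqrt n * (Real.log n / 2) := by
  have h1 : ∀ᶠ n : ℕ in atTop, 40 / (c - 1) ≤ Real.log n :=
    (Real.tendsto_log_atTop.comp tendsto_natCast_atTop_atTop).eventually_ge_atTop _
  filter_upwards [h1, eventually_ge_atTop 1] with n hn hn1
  have hn1' : (1 : ℝ) ≤ n := by exact_mod_cast hn1
  have hs : 1 ≤ Real.sqrt n := Real.one_le_sqrt.2 hn1'
  have hlog : Real.log n ≤ 2 * (Real.sqrt n - 1) := by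
    have h2 : Real.log (Real.sqrt n) ≤ Real.sqrt n - 1 := Real.log_le_sub_one_of_pos (by linarith)
    rw [Real.log_sqrt (by linarith)] at h2
    linarith
  have hpi : Real.pi < 3.15 := Real.pi_lt_d2
  have hl4 : Real.log 4 ≤ 3 := by
    have := Real.log_le_sub_one_of_pos (show (0 : ℝ) < 4 by norm_num)
    linarith
  have hc' : 0 < c - 1 := by linarith
  rw [div_le_iff₀ hc'] at hn
  have h3 : 40 * Real.sqrt n ≤ Real.log n * (c - 1) * Real.sqrt n :=
    mul_le_mul_of_nonneg_right hn (by linarith)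
  have h4 : 2 * Real.pi * Real.sqrt n ≤ 6.3 * Real.sqrt n := by nlinarith
  nlinarith

end Pool.Agent.H319B
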