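import Mathlib
import Pool.Agent.H319B.Basic

set_option autoImplicit false

namespace Pool.Agent.H319B

open Polynomial



/-
PROOF. Put T = √(log n) ≥ 1 (n ≥ 3, log 3 > 1). log D = ∑_{p ∈ S n} log p. The p ∈ S n with p ≤ T √n contribute at most θ(T √n) ≤ log 4 · T √n
(Chebyshev.theta_le_log4_mul_x, theta = ∑_{p ≤ x} log p). For p ∈ S n with p > T √n (so p > √n, p² > n, p ≤ n) the map p ↦ n / p (Nat division) is
injective: with a = n / p ≥ 1 (a < p) and b = n % p there is k with p - 1 ∣ k, 0 < k ≤ n, p ∤ C(n,k); k = j (p-1), and (p² > n) by Lucas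
(Choose.choose_modEq_choose_mod_mul_choose_div_nat; k = (j-1) p + (p-j) for 1 ≤ j ≤ p; the remaining possibility k = n = p² - 1 is similar)
j - 1 ≤ a and p - j ≤ b, so p ≤ a + 1 + b, i.e. (a+1) p ≤ n + (a + 1), while n < (a+1) p. For given a these two inequalities determine p (two integers in the
half-open interval (n/(a+1), n/(a+1) + 1] are equal). Since a ≤ n / p < √n / T, there are at most √n / T such p, each with log p ≤ log n: contribution
at most (√n / T) log n = √(n log n). Total ≤ (1 + log 4) √(n log n) ≤ 2.4 √(n log n) (log 4 = 2 log 2 < 1.3863, Real.log_two_lt_d9).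
-/

/-- the digit bound -/
theorem bi11_digits (n p k : ℕ) (hp : p.Prime) (hk : 0 < k) (hd : (p - 1) ∣ k) (hc : ¬ p ∣ n.choose k) :
    p ≤ n / p + n % p + 1 := by
  have : Fact p.Prime := ⟨hp⟩
  have h1 := Choose.choose_modEq_choose_mod_mul_choose_div_nat (n := n) (k := k) (p := p)
  have h2 : ¬ p ∣ (n % p).choose (k % p) * (n / p).choose (k / p) := fun h => hc ((h1.dvd_iff dvd_rfl).2 h)
  have h3 : k % p ≤ n % p := by
    by_contra hcon
    push Not at hcon
    exact h2 (by rw [Nat.choose_eq_zero_of_lt hcon, zero_mul]; exact dvd_zero p)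
  have h4 : k / p ≤ n / p := by
    by_contra hcon
    push Not at hcon
    exact h2 (by rw [Nat.choose_eq_zero_of_lt hcon, mul_zero]; exact dvd_zero p)
  have h5 : k = (p - 1) * (k / p) + (k / p + k % p) := by
    have h := Nat.div_add_mod k p
    obtain ⟨q, hq⟩ := Nat.exists_eq_add_of_le hp.one_le
    have hq1 : p - 1 = q := by omega
    rw [hq1]
    have h6 : ∀ m : ℕ, p * m = q * m + m := by
      intro m
      rw [hq]
      ring
    have h7 := h6 (k / p)
    generalize k / p = u at *
    generalize k % p = v at *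
    generalize q * u = w at *
    generalize p * u = z at *
    omega
  have h6 : (p - 1) ∣ k / p + k % p := by
    have h7 : (p - 1) ∣ (p - 1) * (k / p) + (k / p + k % p) := h5 ▸ hd
    exact (Nat.dvd_add_right (Dvd.intro _ rfl)).1 h7
  have h7 : 0 < k / p + k % p := by
    by_contra hcon
    have h8 : k / p + k % p = 0 := Nat.eq_zero_of_not_pos hcon
    have h9 : k / p = 0 := (Nat.add_eq_zero_iff.1 h8).1
    rw [h8, h9, mul_zero] at h5
    omega
  have h8 := Nat.le_of_dvd h7 h6
  omega

theorem bi11_inj (n p p' : ℕ) (hp : 0 < p) (h : p ≤ n / p + n % p + 1)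
    (h' : p' ≤ n / p' + n % p' + 1) (he : n / p = n / p') : p' ≤ p := by
  by_contra hcon
  push Not at hcon
  have h1 : n < (n / p + 1) * p := by
    have := Nat.lt_div_mul_add hp (a := n)
    have h2 : (n / p + 1) * p = n / p * p + p := by ring
    omega
  have h2 := Nat.div_add_mod n p'
  have h3 : (n / p' + 1) * p' ≤ n + n / p' + 1 := by
    have h4 : (n / p' + 1) * p' = p' * (n / p') + p' := by ring
    omega
  rw [← he] at h3
  have h4 : (n / p + 1) * (p + 1) ≤ (n / p + 1) * p' := Nat.mul_le_mul_left _ hcon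
  have h5 : (n / p + 1) * (p + 1) = (n / p + 1) * p + (n / p + 1) := by ring
  omega

theorem log_D_le2 (n : ℕ) (hn : 3 ≤ n) :
    Real.log (D n) ≤ 2.4 * Real.sqrt (n * Real.log n) := by
  classical
  have hS : ∀ p ∈ S n, p.Prime ∧ p ≤ n ∧ p ≤ n / p + n % p + 1 := by
    intro p hp
    unfold S at hp
    rw [Finset.mem_filter, Finset.mem_range] at hp
    obtain ⟨h1, h2, -, k, hk, -, hd, hc⟩ := hp
    exact ⟨h2, by omega, bi11_digits n p k h2 hk hd hc⟩
  have hn' : (3 : ℝ) ≤ (n : ℝ) := by exact_mod_cast hn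
  have hlog1 : (1 : ℝ) ≤ Real.log n := by
    rw [Real.le_log_iff_exp_le (by linarith)]
    have := Real.exp_one_lt_d9
    linarith
  set L : ℝ := Real.log n with hL
  set T : ℝ := Real.sqrt L with hT
  set N : ℝ := Real.sqrt n with hN
  have hT1 : (1 : ℝ) ≤ T := by
    rw [hT]
    exact Real.one_le_sqrt.2 hlog1
  have hT0 : (0 : ℝ) < T := by linarith
  have hN0 : (0 : ℝ) < N := Real.sqrt_pos.2 (by linarith)
  have hTT : T * T = L := Real.mul_self_sqrt (by linarith)
  have hNN : N * N = n := Real.mul_self_sqrt (by linarith)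
  have hmul : Real.sqrt ((n : ℝ) * L) = N * T := Real.sqrt_mul (by linarith) _
  have hD : Real.log (D n) = ∑ p ∈ S n, Real.log p := by
    unfold D
    rw [Nat.cast_prod, Real.log_prod]
    intro p hp
    have := (hS p hp).1.pos
    positivity
  rw [hD, hmul]
  rw [← Finset.sum_filter_add_sum_filter_not (S n) (fun p : ℕ => (p : ℝ) ≤ T * N)]
  have hA : ∑ p ∈ (S n).filter (fun p : ℕ => (p : ℝ) ≤ T * N), Real.log p ≤ Real.log 4 * (T * N) := by
    refine le_trans ?_ (Chebyshev.theta_le_log4_mul_x (by positivity : (0 : ℝ) ≤ T * N))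
    unfold Chebyshev.theta
    refine Finset.sum_le_sum_of_subset_of_nonneg ?_ ?_
    · intro p hp
      rw [Finset.mem_filter] at hp
      have h1 := (hS p hp.1).1
      rw [Finset.mem_filter, Finset.mem_Ioc]
      exact ⟨⟨h1.pos, Nat.le_floor hp.2⟩, h1⟩
    · intro p hp _
      rw [Finset.mem_filter] at hp
      exact Real.log_nonneg (by exact_mod_cast hp.2.one_le)
  have hcard : ((((S n).filter (fun p : ℕ => ¬ (p : ℝ) ≤ T * N)).card : ℕ) : ℝ) ≤ N / T := by
    have h1 : ((S n).filter (fun p : ℕ => ¬ (p : ℝ) ≤ T * N)).card ≤ (Finset.Icc 1 ⌊N / T⌋₊).card := by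
      refine Finset.card_le_card_of_injOn (fun p => n / p) ?_ ?_
      · intro p hp
        rw [Finset.mem_coe, Finset.mem_filter] at hp
        obtain ⟨h2, h3, h4⟩ := hS p hp.1
        rw [Finset.mem_coe, Finset.mem_Icc]
        refine ⟨Nat.div_pos h3 h2.pos, Nat.le_floor ?_⟩
        have h5 : (0 : ℝ) < (p : ℝ) := by exact_mod_cast h2.pos
        have h6 : (((n / p : ℕ)) : ℝ) ≤ (n : ℝ) / p := Nat.cast_div_le
        refine h6.trans ?_
        rw [div_le_div_iff₀ h5 hT0, ← hNN]
        have h7 := hp.2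
        push Not at h7
        nlinarith
      · intro p hp q hq hpq
        rw [Finset.mem_coe, Finset.mem_filter] at hp hq
        obtain ⟨h2, -, h4⟩ := hS p hp.1
        obtain ⟨h2', -, h4'⟩ := hS q hq.1
        exact le_antisymm (bi11_inj n q p h2'.pos h4' h4 hpq.symm) (bi11_inj n p q h2.pos h4 h4' hpq)
    rw [Nat.card_Icc, Nat.add_sub_cancel] at h1
    calc ((((S n).filter (fun p : ℕ => ¬ (p : ℝ) ≤ T * N)).card : ℕ) : ℝ) ≤ ((⌊N / T⌋₊ : ℕ) : ℝ) := by exact_mod_cast h1
      _ ≤ N / T := Nat.floor_le (by positivity)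
  have hB : ∑ p ∈ (S n).filter (fun p : ℕ => ¬ (p : ℝ) ≤ T * N), Real.log p ≤ N * T := by
    calc ∑ p ∈ (S n).filter (fun p : ℕ => ¬ (p : ℝ) ≤ T * N), Real.log p
        ≤ ∑ _p ∈ (S n).filter (fun p : ℕ => ¬ (p : ℝ) ≤ T * N), L := by
          refine Finset.sum_le_sum fun p hp => ?_
          rw [Finset.mem_filter] at hp
          obtain ⟨h2, h3, -⟩ := hS p hp.1
          exact Real.log_le_log (by exact_mod_cast h2.pos) (by exact_mod_cast h3)
      _ = ((((S n).filter (fun p : ℕ => ¬ (p : ℝ) ≤ T * N)).card : ℕ) : ℝ) * L := by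
          rw [Finset.sum_const, nsmul_eq_mul]
      _ ≤ N / T * L := mul_le_mul_of_nonneg_right hcard (by linarith)
      _ = N * T := by
          rw [← hTT]
          field_simp
  have h4 : Real.log 4 ≤ 1.4 := by
    have h5 : (4 : ℝ) = 2 ^ 2 := by norm_num
    rw [h5, Real.log_pow]
    have := Real.log_two_lt_d9
    push_cast
    linarith
  have h5 : (0 : ℝ) < N * T := by positivity
  have h6 : Real.log 4 * (T * N) ≤ 1.4 * (N * T) := by
    rw [mul_comm T N]
    exact mul_le_mul_of_nonneg_right h4 h5.le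
  have h7 : (2.4 : ℝ) * (N * T) = 1.4 * (N * T) + N * T := by ring
  linarith


end Pool.Agent.H319B
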