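import Mathlib
import Pool.Agent.H319B.Asym1
import Pool.Agent.H319B.Asym2
import Pool.Agent.H319B.BI5
import Pool.Agent.H319B.BI11

set_option autoImplicit false

namespace Pool.Agent.H319B

open Polynomial Filter


/-- the final comparison, sharper version -/
theorem ev4 : ∀ᶠ n : ℕ in atTop,
    Real.log 4 + 2.4 * Real.sqrt (n * Real.log n) + 2 * Real.log n +
      2 * Real.pi * Real.sqrt n < 5 * Real.sqrt (n / Real.log n) * (Real.log n / 2) := by
  have h1 : ∀ᶠ n : ℕ in atTop, (40000 : ℝ) ≤ Real.log n :=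
    (Real.tendsto_log_atTop.comp tendsto_natCast_atTop_atTop).eventually_ge_atTop _
  filter_upwards [h1, eventually_ge_atTop 1] with n hn hn1
  have hn1' : (1 : ℝ) ≤ n := by exact_mod_cast hn1
  have hs : 1 ≤ Real.sqrt n := Real.one_le_sqrt.2 hn1'
  have hlog0 : 0 < Real.log n := by linarith
  have hlog : Real.log n ≤ 2 * (Real.sqrt n - 1) := by
    have h2 : Real.log (Real.sqrt n) ≤ Real.sqrt n - 1 := Real.log_le_sub_one_of_pos (by linarith)
    rw [Real.log_sqrt (by linarith)] at h2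
    linarith
  have hpi : Real.pi < 3.15 := Real.pi_lt_d2
  have hl4 : Real.log 4 ≤ 3 := by
    have := Real.log_le_sub_one_of_pos (show (0 : ℝ) < 4 by norm_num)
    linarith
  have hsl : 200 ≤ Real.sqrt (Real.log n) := Real.le_sqrt_of_sq_le (by norm_num; linarith)
  have e1 : Real.sqrt (n * Real.log n) = Real.sqrt n * Real.sqrt (Real.log n) :=
    Real.sqrt_mul (by linarith) _
  have e2 : Real.sqrt (n / Real.log n) * Real.log n = Real.sqrt n * Real.sqrt (Real.log n) := by
    rw [Real.sqrt_div (by linarith)]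
    have h3 : 0 < Real.sqrt (Real.log n) := by linarith
    have h4 : Real.sqrt (Real.log n) * Real.sqrt (Real.log n) = Real.log n :=
      Real.mul_self_sqrt hlog0.le
    rw [div_mul_eq_mul_div, div_eq_iff h3.ne', mul_assoc, h4]
  have e3 : 5 * Real.sqrt (n / Real.log n) * (Real.log n / 2) =
      2.5 * (Real.sqrt (n / Real.log n) * Real.log n) := by ring
  rw [e3, e2, e1]
  have h5 : 200 * Real.sqrt n ≤ Real.sqrt n * Real.sqrt (Real.log n) := by
    rw [mul_comm (200 : ℝ)]
    exact mul_le_mul_of_nonneg_left hsl (by linarith)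
  have h6 : 2 * Real.pi * Real.sqrt n ≤ 6.3 * Real.sqrt n := by nlinarith
  nlinarith

/-- every factorisation of `B_n` (`n` odd, large) has a factor of degree at most
`5 √(n / log n)` -/
theorem two_factor2 : ∃ n₀ : ℕ, ∀ n : ℕ, n₀ ≤ n → Odd n → ∀ A H : ℚ[X],
    A.Monic → H.Monic → A * H = Polynomial.bernoulli n →
    (A.natDegree : ℝ) ≤ 5 * Real.sqrt (n / Real.log n) ∨
      (H.natDegree : ℝ) ≤ 5 * Real.sqrt (n / Real.log n) := by
  have hev := (ev1.and (ev2.and (ev4.and (eventually_ge_atTop 3))))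
  rw [eventually_atTop] at hev
  obtain ⟨n₀, hn₀⟩ := hev
  refine ⟨n₀, fun n hn ho A H hA hH hAH => ?_⟩
  obtain ⟨h1, h2, h3, hn3⟩ := hn₀ n hn
  by_contra hcon
  push Not at hcon
  obtain ⟨hAd, hHd⟩ := hcon
  have hn1' : (1 : ℝ) ≤ n := by
    have : 1 ≤ n := by omega
    exact_mod_cast this
  have hn0 : (0 : ℝ) < n := by linarith
  have hs : 1 ≤ Real.sqrt n := Real.one_le_sqrt.2 hn1'
  have hs0 : 0 < Real.sqrt n := by linarith
  have hpi : (0 : ℝ) < 2 * Real.pi := by positivity
  have hD : (1 : ℝ) ≤ D n := by exact_mod_cast (D_odd n).pos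
  have hm := main_ineq n hn3 ho A H hA hH hAH (Real.sqrt n) hs0
  set r : ℝ := Real.sqrt n with hr
  set w : ℝ := 5 * Real.sqrt (n / Real.log n) with hw
  -- powers of r
  have hE : ∀ d : ℕ, w < d → 1 / r ^ (d + 1) ≤ Real.exp (-(w * (Real.log n / 2))) := by
    intro d hd
    have hlr : Real.log r = Real.log n / 2 := by rw [hr, Real.log_sqrt hn0.le]
    have hlr0 : 0 ≤ Real.log r := Real.log_nonneg hs
    rw [one_div, ← Real.exp_log (pow_pos hs0 (d + 1)), ← Real.exp_neg]
    refine Real.exp_le_exp.2 (neg_le_neg ?_)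
    rw [Real.log_pow, hlr]
    rw [hlr] at hlr0
    push_cast
    nlinarith
  have hHE := hE H.natDegree hHd
  have hAE := hE A.natDegree hAd
  -- lower bound
  have hev : Even (n - 1) := by
    rcases ho with ⟨k, hk⟩
    exact ⟨k, by omega⟩
  have hlow := bern_lower (n - 1) (by omega) hev
  have hlow2 := bern_two_lower n hn3
  set F1 : ℝ := ((n - 1).factorial : ℝ) / (2 * Real.pi) ^ (n - 1) with hF1
  have hF1pos : 0 < F1 := by rw [hF1]; positivity
  have hlow3 : F1 ≤ |(((Polynomial.bernoulli (n - 1)).eval 2 : ℚ) : ℝ)| := by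
    have : 2 * ((n - 1).factorial : ℝ) / (2 * Real.pi) ^ (n - 1) = 2 * F1 := by rw [hF1]; ring
    rw [this] at hlow
    linarith
  -- n!/(2π)^n = n F1/(2π)
  have hnF : (n.factorial : ℝ) / (2 * Real.pi) ^ n = n * F1 / (2 * Real.pi) := by
    obtain ⟨k, rfl⟩ : ∃ k, n = k + 1 := ⟨n - 1, by omega⟩
    rw [hF1, Nat.add_sub_cancel, Nat.factorial_succ, pow_succ]
    push_cast
    field_simp
  have hexp1 : 1 ≤ Real.exp (2 * Real.pi * r) := Real.one_le_exp (by positivity)
  have hLb : 4 * (n.factorial : ℝ) * Real.exp (2 * Real.pi * r) / (2 * Real.pi) ^ n + n * (1 + r) ^ n ≤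
      n * F1 * Real.exp (2 * Real.pi * r) := by
    have e1 : 4 * (n.factorial : ℝ) * Real.exp (2 * Real.pi * r) / (2 * Real.pi) ^ n =
        4 * (n * F1 / (2 * Real.pi)) * Real.exp (2 * Real.pi * r) := by
      rw [← hnF]; ring
    rw [e1]
    rw [hnF] at h1
    have h5 : n * (1 + r) ^ n ≤ (n * F1 / (2 * Real.pi)) * Real.exp (2 * Real.pi * r) :=
      h1.trans (le_mul_of_one_le_right (by positivity) hexp1)
    have h6 : 5 * (n * F1 / (2 * Real.pi)) ≤ n * F1 := by
      have h7 : (5 : ℝ) ≤ 2 * Real.pi := by linarith [Real.pi_gt_three]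
      rw [mul_div_assoc', div_le_iff₀ hpi]
      nlinarith [mul_pos hn0 hF1pos]
    nlinarith [Real.exp_pos (2 * Real.pi * r)]
  have hsumE : 1 / r ^ (H.natDegree + 1) + 1 / r ^ (A.natDegree + 1) ≤
      2 * Real.exp (-(w * (Real.log n / 2))) := by linarith
  have hfin : F1 ≤ (n * F1 * Real.exp (2 * Real.pi * r)) * (2 * (D n : ℝ) * n) *
      (2 * Real.exp (-(w * (Real.log n / 2)))) := by
    refine hlow3.trans (hm.trans ?_)
    refine mul_le_mul (mul_le_mul_of_nonneg_right hLb (by positivity)) hsumE (by positivity) ?_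
    positivity
  have hfin2 : (1 : ℝ) ≤ 4 * D n * n ^ 2 * Real.exp (2 * Real.pi * r) *
      Real.exp (-(w * (Real.log n / 2))) := by
    have h8 : F1 * 1 ≤ F1 * (4 * D n * n ^ 2 * Real.exp (2 * Real.pi * r) *
      Real.exp (-(w * (Real.log n / 2)))) := by
      rw [mul_one]
      refine hfin.trans (le_of_eq (by ring))
    exact le_of_mul_le_mul_left h8 hF1pos
  have hfin3 : (0 : ℝ) ≤ Real.log (4 * D n * n ^ 2 * Real.exp (2 * Real.pi * r) *
      Real.exp (-(w * (Real.log n / 2)))) := Real.log_nonneg hfin2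
  have hDpos : (0 : ℝ) < D n := by linarith
  rw [Real.log_mul (by positivity) (by positivity), Real.log_mul (by positivity) (by positivity),
    Real.log_mul (by positivity) (by positivity), Real.log_mul (by positivity) (by positivity),
    Real.log_exp, Real.log_exp, Real.log_pow] at hfin3
  have hlD := log_D_le2 n hn3
  push_cast at hfin3
  linarith

end Pool.Agent.H319B
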