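import Mathlib

set_option autoImplicit false

namespace Pool.Agent.H319B

open Polynomial

/-
PROOF. R is a product of finitely many monic irreducible polynomials f_1, ..., f_k (ℚ[X] is a UFD: UniqueFactorizationMonoid.normalizedFactors,
or induction). If some f_i has degree > T then, since R = f_i * (rest) and deg f_i > T, the hypothesis gives deg (rest) ≤ T, so deg f_i ≥
deg R - T. Otherwise all degrees are ≤ T; multiply the f_i one after the other: the degrees of the partial products start at 0, end at deg R > 3 T
and increase by at most T each time, so some partial product g has T < deg g ≤ 2 T, and the complementary product has degree > T: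
contradiction to the hypothesis. (Alternatively: take a divisor g of R of maximal degree among those with degree ≤ T... or: take a monic divisor
g of R of minimal degree among those with degree > T; for an irreducible factor f of g, g/f has degree ≤ T by minimality. If g is irreducible we
are in the first case. Otherwise choose an irreducible factor f of g; f is a proper divisor so deg f ≤ T by minimality, and deg g ≤ 2 T, while the
cofactor R/g has degree > T: contradiction.)
-/

theorem large_factor (R : ℚ[X]) (hR : R.Monic) (T : ℝ) (hT : 0 ≤ T) (hdeg : 3 * T < R.natDegree)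
    (h : ∀ g h : ℚ[X], g.Monic → h.Monic → g * h = R → (g.natDegree : ℝ) ≤ T ∨ (h.natDegree : ℝ) ≤ T) :
    ∃ f : ℚ[X], Irreducible f ∧ f.Monic ∧ f ∣ R ∧ (R.natDegree : ℝ) - T ≤ f.natDegree := by
  classical
  have hex : ∃ n : ℕ, ∃ g : ℚ[X], g.Monic ∧ g ∣ R ∧ g.natDegree = n ∧ T < (n : ℝ) :=
    ⟨R.natDegree, R, hR, dvd_rfl, rfl, by linarith⟩
  obtain ⟨g, hgm, hgR, hgn, hgT⟩ := Nat.find_spec hex
  have hmin : ∀ f : ℚ[X], f.Monic → f ∣ R → f.natDegree < g.natDegree → (f.natDegree : ℝ) ≤ T := by
    intro f hfm hfR hlt
    by_contra hcon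
    rw [not_le] at hcon
    rw [hgn] at hlt
    exact Nat.find_min hex hlt ⟨f, hfm, hfR, rfl, hcon⟩
  rw [← hgn] at hgT
  obtain ⟨k, hk⟩ := hgR
  have hkm : k.Monic := hgm.of_mul_monic_left (hk ▸ hR)
  have hdegR : R.natDegree = g.natDegree + k.natDegree := by
    rw [hk, hgm.natDegree_mul hkm]
  have hkT : (k.natDegree : ℝ) ≤ T := by
    rcases h g k hgm hkm hk.symm with h1 | h1
    · exact absurd hgT (not_lt.2 h1)
    · exact h1
  have hdegR' : (R.natDegree : ℝ) = g.natDegree + k.natDegree := by exact_mod_cast hdegR
  by_cases hirr : Irreducible g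
  · exact ⟨g, hirr, hgm, ⟨k, hk⟩, by linarith⟩
  · exfalso
    have hgu : ¬ IsUnit g := by
      intro hu
      have h0 : g.natDegree = 0 := natDegree_eq_zero_of_isUnit hu
      rw [h0] at hgT
      simp only [Nat.cast_zero] at hgT
      linarith
    obtain ⟨f, hfm, hfi, hfg⟩ := exists_monic_irreducible_factor g hgu
    obtain ⟨l, hl⟩ := hfg
    have hlm : l.Monic := hfm.of_mul_monic_left (hl ▸ hgm)
    have hdg : g.natDegree = f.natDegree + l.natDegree := by
      rw [hl, hfm.natDegree_mul hlm]
    have hf1 : 0 < f.natDegree := hfi.natDegree_pos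
    have hl1 : 0 < l.natDegree := by
      rw [Nat.pos_iff_ne_zero]
      intro h0
      have h1 : l = 1 := hlm.natDegree_eq_zero.1 h0
      rw [h1, mul_one] at hl
      exact hirr (hl ▸ hfi)
    have hfT := hmin f hfm ⟨l * k, by rw [← mul_assoc, ← hl]; exact hk⟩ (by omega)
    have hlT := hmin l hlm ⟨f * k, by rw [← mul_assoc, mul_comm l f, ← hl]; exact hk⟩ (by omega)
    have hdg' : (g.natDegree : ℝ) = f.natDegree + l.natDegree := by exact_mod_cast hdg
    linarith

end Pool.Agent.H319B
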