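import Mathlib

set_option autoImplicit false

namespace Pool.Agent.H319B

open Polynomial

/-
PROOF. Let q ≤ x be a bad prime, q ≠ 2 (for q = 2 orderOf (2 : ZMod 2) = orderOf 0 = 0; it is one extra prime). t ↦ t / log t is increasing for t ≥ e, q + 2 ≥ 5,
so orderOf (2 : ZMod q) ≤ c √((x+2)/log (x+2)) =: Y. Put y = ⌊Y⌋. Every odd bad prime q ≤ x divides 2^t - 1 with t = orderOf 2 ∈ [1, y], so the product of the
odd bad primes divides ∏_{t=1}^y (2^t - 1) < 2^(y(y+1)/2); hence ∑_{bad} log q ≤ (log 2) y (y+1)/2 ≤ (log 2) Y² ≤ c² (x+2)/log (x+2) (y(y+1)/2 ≤ y² for y ≥ 1,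
and both are 0 for y = 0). The bad primes q ≤ √x are at most √x many; for the others log q ≥ (log x)/2, so there are at most
(2/log x) c² (x+2)/log(x+2) ≤ 4 c² x/(log x)² of them. √x ≤ x/(log x)² for x large. So C = 4 c² + 2 works.
-/

theorem bi12_mono {q x : ℕ} (hq : 2 ≤ q) (hqx : q ≤ x) :
    ((q : ℝ) + 2) / Real.log ((q : ℝ) + 2) ≤ ((x : ℝ) + 2) / Real.log ((x : ℝ) + 2) := by
  have hq' : (2 : ℝ) ≤ q := by exact_mod_cast hq
  have hqx' : (q : ℝ) ≤ x := by exact_mod_cast hqx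
  have he : Real.exp 1 ≤ 4 := by
    have := Real.exp_one_lt_d9
    linarith
  have h1 : Real.log ((x : ℝ) + 2) / ((x : ℝ) + 2) ≤ Real.log ((q : ℝ) + 2) / ((q : ℝ) + 2) := by
    apply Real.log_div_self_antitoneOn
    · show Real.exp 1 ≤ (q : ℝ) + 2
      linarith
    · show Real.exp 1 ≤ (x : ℝ) + 2
      linarith
    · linarith
  have hpx : 0 < Real.log ((x : ℝ) + 2) := Real.log_pos (by linarith)
  have hpq : 0 < Real.log ((q : ℝ) + 2) := Real.log_pos (by linarith)
  rw [div_le_div_iff₀ (by linarith) (by linarith)] at h1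
  rw [div_le_div_iff₀ hpq hpx]
  nlinarith [h1]

theorem bi12_count (x t : ℕ) (hx : 16 ≤ x) (ht : 1 ≤ t) :
    ((((Finset.range (x + 1)).filter (fun q : ℕ => q.Prime ∧ x < q * q ∧ q ∣ 2 ^ t - 1)).card : ℝ)) ≤
      t * (2 * Real.log 2 / Real.log x) := by
  set S := (Finset.range (x + 1)).filter (fun q : ℕ => q.Prime ∧ x < q * q ∧ q ∣ 2 ^ t - 1) with hS
  have hx' : (16 : ℝ) ≤ x := by exact_mod_cast hx
  have hlx : 0 < Real.log x := Real.log_pos (by linarith)
  have hdvd : (∏ q ∈ S, q) ∣ 2 ^ t - 1 := by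
    apply Finset.prod_primes_dvd
    · intro q hq
      rw [hS, Finset.mem_filter] at hq
      exact Nat.prime_iff.mp hq.2.1
    · intro q hq
      rw [hS, Finset.mem_filter] at hq
      exact hq.2.2.2
  have hpos : 0 < 2 ^ t - 1 := by
    have : 2 ^ 1 ≤ 2 ^ t := Nat.pow_le_pow_right (by norm_num) ht
    omega
  have hle : (∏ q ∈ S, q) ≤ 2 ^ t := (Nat.le_of_dvd hpos hdvd).trans (Nat.sub_le _ _)
  have hle' : ((∏ q ∈ S, (q : ℝ))) ≤ (2 : ℝ) ^ t := by
    have := (Nat.cast_le (α := ℝ)).mpr hle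
    push_cast at this
    exact this
  have hqpos : ∀ q ∈ S, (0 : ℝ) < (q : ℝ) := by
    intro q hq
    rw [hS, Finset.mem_filter] at hq
    exact_mod_cast hq.2.1.pos
  have hlog : ∑ q ∈ S, Real.log (q : ℝ) ≤ t * Real.log 2 := by
    rw [← Real.log_prod (fun q hq => (hqpos q hq).ne'), ← Real.log_pow]
    exact Real.log_le_log (Finset.prod_pos hqpos) hle'
  have hlow : ∑ q ∈ S, Real.log x / 2 ≤ ∑ q ∈ S, Real.log (q : ℝ) := by
    apply Finset.sum_le_sum
    intro q hq
    have hq0 := hqpos q hq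
    rw [hS, Finset.mem_filter] at hq
    have h2 : (x : ℝ) ≤ (q : ℝ) * q := by
      have := hq.2.2.1.le
      exact_mod_cast this
    have h3 : Real.log x ≤ Real.log ((q : ℝ) * q) := Real.log_le_log (by linarith) h2
    rw [Real.log_mul hq0.ne' hq0.ne'] at h3
    linarith
  rw [Finset.sum_const, nsmul_eq_mul] at hlow
  have h4 : (S.card : ℝ) * (Real.log x / 2) ≤ t * Real.log 2 := hlow.trans hlog
  have h5 : (t : ℝ) * (2 * Real.log 2 / Real.log x) = (t * Real.log 2) / (Real.log x / 2) := by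
    field_simp
  rw [h5, le_div_iff₀ (by linarith)]
  exact h4

theorem bi12_growth (x : ℕ) (hx : 2 ^ 28 ≤ x) :
    Real.sqrt x + 1 ≤ x / (Real.log x) ^ 2 := by
  have hx' : (2 : ℝ) ^ 28 ≤ x := by exact_mod_cast hx
  have hx1 : (1 : ℝ) < x := by
    have : (1 : ℝ) < 2 ^ 28 := by norm_num
    linarith
  have hx0 : (0 : ℝ) < x := by linarith
  have hlx : 0 < Real.log x := Real.log_pos hx1
  rw [le_div_iff₀ (by positivity)]
  set z : ℝ := (x : ℝ) ^ ((1 : ℝ) / 8) with hz
  have hz0 : 0 < z := Real.rpow_pos_of_pos hx0 _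
  have hlog : Real.log x ≤ 8 * z := by
    have := Real.log_le_rpow_div (x := (x : ℝ)) hx0.le (ε := 1 / 8) (by norm_num)
    calc Real.log x ≤ (x : ℝ) ^ ((1 : ℝ) / 8) / (1 / 8) := this
      _ = 8 * z := by rw [hz]; ring
  have hz8 : z ^ 8 = x := by
    rw [hz, ← Real.rpow_natCast, ← Real.rpow_mul hx0.le]
    norm_num
  have hsqrt : Real.sqrt x = z ^ 4 := by
    rw [Real.sqrt_eq_iff_mul_self_eq hx0.le (by positivity)]
    rw [← hz8]; ring
  have hz2 : (128 : ℝ) ≤ z ^ 2 := by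
    by_contra hcon
    push Not at hcon
    have : (z ^ 2) ^ 4 < 128 ^ 4 := by
      apply pow_lt_pow_left₀ hcon (by positivity) (by norm_num)
    have h8 : (z ^ 2) ^ 4 = x := by rw [← hz8]; ring
    rw [h8] at this
    norm_num at this hx'
    linarith
  have hz4 : (1 : ℝ) ≤ z ^ 4 := by nlinarith
  have hl2 : (Real.log x) ^ 2 ≤ 64 * z ^ 2 := by
    have : (Real.log x) ^ 2 ≤ (8 * z) ^ 2 := pow_le_pow_left₀ hlx.le hlog 2
    nlinarith
  rw [hsqrt]
  calc (z ^ 4 + 1) * (Real.log x) ^ 2 ≤ (2 * z ^ 4) * (64 * z ^ 2) := by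
        apply mul_le_mul _ hl2 (by positivity) (by positivity)
        linarith
    _ = 128 * z ^ 6 := by ring
    _ ≤ z ^ 2 * z ^ 6 := by
        apply mul_le_mul_of_nonneg_right hz2 (by positivity)
    _ = x := by rw [← hz8]; ring

open Classical in
theorem few_bad_primes (c : ℝ) (hc : 0 < c) :
    ∃ C : ℝ, 0 < C ∧ ∃ x₀ : ℕ, ∀ x : ℕ, x₀ ≤ x →
      (((Finset.range (x + 1)).filter (fun q : ℕ => q.Prime ∧
        (orderOf (2 : ZMod q) : ℝ) ≤ c * Real.sqrt (((q : ℝ) + 2) / Real.log ((q : ℝ) + 2)))).card : ℝ) ≤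
      C * x / (Real.log x) ^ 2 := by
  refine ⟨4 * c ^ 2 + 1, by positivity, 2 ^ 28, fun x hx => ?_⟩
  have hx' : (2 : ℝ) ^ 28 ≤ x := by exact_mod_cast hx
  have hx1 : (1 : ℝ) < x := by
    have : (1 : ℝ) < 2 ^ 28 := by norm_num
    linarith
  have hx2 : (2 : ℝ) ≤ x := by
    have : (2 : ℝ) ≤ 2 ^ 28 := by norm_num
    linarith
  have hx0 : (0 : ℝ) < x := by linarith
  have hlx : 0 < Real.log x := Real.log_pos hx1
  have hlx2 : 0 < Real.log ((x : ℝ) + 2) := Real.log_pos (by linarith)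
  have hxn : 16 ≤ x := le_trans (by norm_num) hx
  set Y : ℝ := c * Real.sqrt (((x : ℝ) + 2) / Real.log ((x : ℝ) + 2)) with hY
  have hY0 : 0 ≤ Y := by positivity
  set y : ℕ := ⌊Y⌋₊ with hy
  have hyY : (y : ℝ) ≤ Y := Nat.floor_le hY0
  have hsub : ((Finset.range (x + 1)).filter (fun q : ℕ => q.Prime ∧
        (orderOf (2 : ZMod q) : ℝ) ≤ c * Real.sqrt (((q : ℝ) + 2) / Real.log ((q : ℝ) + 2)))) ⊆
      (Finset.range (Nat.sqrt x + 1)) ∪ (Finset.Icc 1 y).biUnion (fun t =>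
        (Finset.range (x + 1)).filter (fun q : ℕ => q.Prime ∧ x < q * q ∧ q ∣ 2 ^ t - 1)) := by
    intro q hq
    rw [Finset.mem_filter] at hq
    obtain ⟨hqr, hqp, hqo⟩ := hq
    rw [Finset.mem_union]
    by_cases hqs : q ≤ Nat.sqrt x
    · left
      rw [Finset.mem_range]; omega
    · right
      have hqs' : Nat.sqrt x < q := by omega
      have hlt : x < q * q := Nat.sqrt_lt.mp hqs'
      have hs4 : 4 ≤ Nat.sqrt x := Nat.le_sqrt.mpr (by omega)
      have : Fact q.Prime := ⟨hqp⟩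
      have hq2 : 2 < q := by omega
      have h20 : (2 : ZMod q) ≠ 0 := by
        intro h
        have h' : ((2 : ℕ) : ZMod q) = 0 := by exact_mod_cast h
        rw [ZMod.natCast_eq_zero_iff] at h'
        have := Nat.le_of_dvd (by norm_num) h'
        omega
      have hfin : IsOfFinOrder (2 : ZMod q) := by
        rw [isOfFinOrder_iff_pow_eq_one]
        exact ⟨q - 1, by omega, ZMod.pow_card_sub_one_eq_one h20⟩
      have hop : 0 < orderOf (2 : ZMod q) := hfin.orderOf_pos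
      have hqx : q ≤ x := by
        rw [Finset.mem_range] at hqr; omega
      have hoY : (orderOf (2 : ZMod q) : ℝ) ≤ Y := by
        refine hqo.trans ?_
        rw [hY]
        apply mul_le_mul_of_nonneg_left _ hc.le
        exact Real.sqrt_le_sqrt (bi12_mono (by omega) hqx)
      have hoy : orderOf (2 : ZMod q) ≤ y := Nat.le_floor hoY
      rw [Finset.mem_biUnion]
      refine ⟨orderOf (2 : ZMod q), Finset.mem_Icc.mpr ⟨hop, hoy⟩, ?_⟩
      rw [Finset.mem_filter]
      refine ⟨hqr, hqp, hlt, ?_⟩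
      have hone : ((2 : ZMod q)) ^ orderOf (2 : ZMod q) = 1 := pow_orderOf_eq_one _
      have h1le : 1 ≤ 2 ^ orderOf (2 : ZMod q) := Nat.one_le_two_pow
      rw [← ZMod.natCast_eq_zero_iff, Nat.cast_sub h1le]
      push_cast
      rw [hone, sub_self]
  have hcard1 : (((Finset.range (x + 1)).filter (fun q : ℕ => q.Prime ∧
        (orderOf (2 : ZMod q) : ℝ) ≤ c * Real.sqrt (((q : ℝ) + 2) / Real.log ((q : ℝ) + 2)))).card : ℝ) ≤
      ((Nat.sqrt x + 1 : ℕ) : ℝ) + ∑ t ∈ Finset.Icc 1 y, ((((Finset.range (x + 1)).filter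
        (fun q : ℕ => q.Prime ∧ x < q * q ∧ q ∣ 2 ^ t - 1)).card : ℕ) : ℝ) := by
    have h1 := Finset.card_le_card hsub
    have h2 := Finset.card_union_le (Finset.range (Nat.sqrt x + 1)) ((Finset.Icc 1 y).biUnion (fun t =>
        (Finset.range (x + 1)).filter (fun q : ℕ => q.Prime ∧ x < q * q ∧ q ∣ 2 ^ t - 1)))
    have h3 := Finset.card_biUnion_le (s := Finset.Icc 1 y) (t := fun t =>
        (Finset.range (x + 1)).filter (fun q : ℕ => q.Prime ∧ x < q * q ∧ q ∣ 2 ^ t - 1))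
    rw [Finset.card_range] at h2
    have h4 := h1.trans (h2.trans (Nat.add_le_add_left h3 _))
    exact_mod_cast h4
  have hsum : ∑ t ∈ Finset.Icc 1 y, ((((Finset.range (x + 1)).filter
        (fun q : ℕ => q.Prime ∧ x < q * q ∧ q ∣ 2 ^ t - 1)).card : ℕ) : ℝ) ≤
      y * (y * (2 * Real.log 2 / Real.log x)) := by
    have hk : 0 ≤ 2 * Real.log 2 / Real.log x := by
      have := Real.log_pos (by norm_num : (1 : ℝ) < 2)
      positivity
    calc _ ≤ ∑ t ∈ Finset.Icc 1 y, (y * (2 * Real.log 2 / Real.log x) : ℝ) := by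
          apply Finset.sum_le_sum
          intro t ht
          rw [Finset.mem_Icc] at ht
          refine (bi12_count x t hxn ht.1).trans ?_
          apply mul_le_mul_of_nonneg_right _ hk
          exact_mod_cast ht.2
      _ = y * (y * (2 * Real.log 2 / Real.log x)) := by
          rw [Finset.sum_const, Nat.card_Icc, nsmul_eq_mul]
          simp
  have hY2 : Y ^ 2 = c ^ 2 * (((x : ℝ) + 2) / Real.log ((x : ℝ) + 2)) := by
    rw [hY, mul_pow, Real.sq_sqrt (by positivity)]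
  have hy2 : (y : ℝ) * y ≤ c ^ 2 * (2 * x / Real.log x) := by
    calc (y : ℝ) * y ≤ Y ^ 2 := by rw [sq]; exact mul_le_mul hyY hyY (by positivity) hY0
      _ = c ^ 2 * (((x : ℝ) + 2) / Real.log ((x : ℝ) + 2)) := hY2
      _ ≤ c ^ 2 * (2 * x / Real.log x) := by
          apply mul_le_mul_of_nonneg_left _ (by positivity)
          apply div_le_div₀ (by positivity) (by linarith) hlx
          exact Real.log_le_log hx0 (by linarith)
  have hl2 : Real.log 2 ≤ 1 := by
    have := Real.log_two_lt_d9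
    linarith
  have hl20 : 0 < Real.log 2 := Real.log_pos (by norm_num)
  have hfinal : (y : ℝ) * (y * (2 * Real.log 2 / Real.log x)) ≤ 4 * c ^ 2 * x / (Real.log x) ^ 2 := by
    calc (y : ℝ) * (y * (2 * Real.log 2 / Real.log x)) = ((y : ℝ) * y) * (2 * Real.log 2 / Real.log x) := by ring
      _ ≤ (c ^ 2 * (2 * x / Real.log x)) * (2 * 1 / Real.log x) := by
          apply mul_le_mul hy2 _ (by positivity) (by positivity)
          apply div_le_div_of_nonneg_right _ hlx.le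
          linarith
      _ = 4 * c ^ 2 * x / (Real.log x) ^ 2 := by
          field_simp
          ring
  have hsq : ((Nat.sqrt x + 1 : ℕ) : ℝ) ≤ x / (Real.log x) ^ 2 := by
    refine le_trans ?_ (bi12_growth x hx)
    push_cast
    have : ((Nat.sqrt x : ℕ) : ℝ) ≤ Real.sqrt x := Real.nat_sqrt_le_real_sqrt
    linarith
  calc _ ≤ _ := hcard1
    _ ≤ x / (Real.log x) ^ 2 + 4 * c ^ 2 * x / (Real.log x) ^ 2 := by
        apply add_le_add hsq (hsum.trans hfinal)
    _ = (4 * c ^ 2 + 1) * x / (Real.log x) ^ 2 := by ring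

end Pool.Agent.H319B
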