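import Mathlib

set_option autoImplicit false

namespace Pool.Agent.H319B

open Polynomial

theorem bi8_key (K : Type) [Field K] [Finite K] [CharP K 2] (d : ℕ) (hd : 0 < d) (hK : Nat.card K = 2 ^ d)
    (N : ℕ) (hN : 0 < N) (α : K) (h : (1 + α) ^ N + α ^ N = 0) :
    ∃ l : ℕ, l.Prime ∧ l ∣ N ∧ orderOf (2 : ZMod l) ≤ d := by
  have hα : α ≠ 0 := by
    rintro rfl
    rw [add_zero, one_pow, zero_pow hN.ne', add_zero] at h
    exact one_ne_zero h
  have h1 : (1 + α) ^ N = α ^ N := by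
    have := eq_neg_of_add_eq_zero_left h
    rwa [CharTwo.neg_eq] at this
  set y := (1 + α) / α with hy
  have hyN : y ^ N = 1 := by
    rw [hy, div_pow, h1, div_self (pow_ne_zero _ hα)]
  have hy1 : y ≠ 1 := by
    intro h2
    rw [hy, div_eq_one_iff_eq hα] at h2
    have : (1 : K) = 0 := by
      calc (1 : K) = 1 + α - α := by ring
        _ = 0 := by rw [h2, sub_self]
    exact one_ne_zero this
  have hy0 : y ≠ 0 := by
    intro h2
    rw [h2, zero_pow hN.ne'] at hyN
    exact zero_ne_one hyN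
  have := Fintype.ofFinite K
  have hy2 : y ^ (2 ^ d - 1) = 1 := by
    rw [← hK, Nat.card_eq_fintype_card]
    exact FiniteField.pow_card_sub_one_eq_one y hy0
  have he : orderOf y ≠ 1 := fun h2 => hy1 (orderOf_eq_one_iff.1 h2)
  have hl := Nat.minFac_prime he
  refine ⟨(orderOf y).minFac, hl, (Nat.minFac_dvd _).trans (orderOf_dvd_of_pow_eq_one hyN), ?_⟩
  refine Nat.le_of_dvd hd (orderOf_dvd_of_pow_eq_one ?_)
  have h3 : (orderOf y).minFac ∣ 2 ^ d - 1 := (Nat.minFac_dvd _).trans (orderOf_dvd_of_pow_eq_one hy2)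
  have h4 := (ZMod.natCast_eq_zero_iff (2 ^ d - 1) (orderOf y).minFac).2 h3
  rw [Nat.cast_sub Nat.one_le_two_pow] at h4
  push_cast at h4
  exact sub_eq_zero.1 h4

theorem cyclo_factor (N : ℕ) (hN : 0 < N) (u : (ZMod 2)[X]) (hu : u ∣ (1 + X) ^ N + X ^ N)
    (hd : 0 < u.natDegree) :
    ∃ l : ℕ, l.Prime ∧ l ∣ N ∧ orderOf (2 : ZMod l) ≤ u.natDegree := by
  have hu0 : u ≠ 0 := by
    rintro rfl
    simp at hd
  have huu : ¬ IsUnit u := fun h => hd.ne' (natDegree_eq_zero_of_isUnit h)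
  obtain ⟨v, hv, hvu⟩ := WfDvdMonoid.exists_irreducible_factor huu hu0
  have := Fact.mk hv
  have hdv : 0 < v.natDegree := hv.natDegree_pos
  have hle : v.natDegree ≤ u.natDegree := natDegree_le_of_dvd hvu hu0
  have : Module.Finite (ZMod 2) (AdjoinRoot v) := (AdjoinRoot.powerBasis hv.ne_zero).finite
  have : Finite (AdjoinRoot v) := Module.finite_of_finite (ZMod 2)
  have : CharP (AdjoinRoot v) 2 := charP_of_injective_algebraMap (algebraMap (ZMod 2) (AdjoinRoot v)).injective 2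
  have hcard : Nat.card (AdjoinRoot v) = 2 ^ v.natDegree := by
    rw [Module.natCard_eq_pow_finrank (K := ZMod 2), Nat.card_zmod, (AdjoinRoot.powerBasis hv.ne_zero).finrank,
      AdjoinRoot.powerBasis_dim]
  obtain ⟨l, h1, h2, h3⟩ := bi8_key (AdjoinRoot v) v.natDegree hdv hcard N hN (AdjoinRoot.root v) (by
    have h := hvu.trans hu
    rw [← AdjoinRoot.mk_eq_zero] at h
    simpa using h)
  exact ⟨l, h1, h2, h3.trans hle⟩

end Pool.Agent.H319B
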