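import Mathlib
import Pool.Agent.H319B.Basic
import Pool.Agent.H319B.BI7
import Pool.Agent.H319B.BI8
import Pool.Agent.H319B.BI10
import Pool.Agent.H319B.BI12
import Pool.Agent.H319B.Asym4

/-!
# Reduced odd-index Bernoulli polynomials: the main theorems
-/

set_option autoImplicit false

namespace Pool.Agent.H319B

open Polynomial

/-- the cofactor `R` in the question is `Rn n` -/
theorem eq_Rn (n : ℕ) (hn : 3 ≤ n) (ho : Odd n) (R : ℚ[X])
    (hR : Polynomial.bernoulli n = X * (X - C (1 / 2)) * (X - C 1) * R) : R = Rn n := by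
  obtain ⟨he, -, -⟩ := Rn_spec n hn ho
  exact mul_left_cancel₀ cubic_monic.ne_zero (hR.symm.trans he)

/-- nonconstant rational factors of `R_n` -/
theorem factor_degree (n : ℕ) (hn : 5 ≤ n) (ho : Odd n) (g : ℚ[X]) (hgR : g ∣ Rn n)
    (hd : 0 < g.natDegree) :
    ∃ l : ℕ, l.Prime ∧ l ∣ n - 2 ∧ orderOf (2 : ZMod l) ≤ g.natDegree := by
  have hg0 : g ≠ 0 := by
    intro h
    rw [h, natDegree_zero] at hd
    exact lt_irrefl _ hd
  have hlc : g.leadingCoeff⁻¹ ≠ 0 := inv_ne_zero (leadingCoeff_ne_zero.2 hg0)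
  set g1 : ℚ[X] := g * C g.leadingCoeff⁻¹ with hg1
  have hg1m : g1.Monic := monic_mul_leadingCoeff_inv hg0
  have hg1d : g1.natDegree = g.natDegree := natDegree_mul_leadingCoeff_inv g hg0
  have hg1R : g1 ∣ Rn n := by
    rw [hg1]
    have hu : IsUnit (C g.leadingCoeff⁻¹ : ℚ[X]) := isUnit_C.2 (isUnit_iff_ne_zero.2 hlc)
    exact hu.mul_right_dvd.2 hgR
  obtain ⟨u, hu, hud⟩ := mod_two_factor n hn ho g1 hg1m hg1R
  obtain ⟨l, h1, h2, h3⟩ := cyclo_factor (n - 2) (by omega) u hu (by rw [hud, hg1d]; exact hd)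
  exact ⟨l, h1, h2, by rw [hud, hg1d] at h3; exact h3⟩

/-- an irreducibility test -/
theorem irred_of (n : ℕ) (hn : 5 ≤ n) (ho : Odd n)
    (h : ∀ g h : ℚ[X], g.Monic → h.Monic → g * h = Rn n → g.natDegree = 0 ∨ h.natDegree = 0) :
    Irreducible (Rn n) := by
  obtain ⟨-, hm, hd⟩ := Rn_spec n (by omega) ho
  rw [hm.irreducible_iff_natDegree]
  refine ⟨?_, h⟩
  intro h1
  rw [h1, natDegree_one] at hd
  omega

/-- two factors, one of them small -/
theorem two_factor_R : ∃ n₀ : ℕ, ∀ n : ℕ, n₀ ≤ n → Odd n → ∀ g h : ℚ[X],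
    g.Monic → h.Monic → g * h = Rn n →
    (g.natDegree : ℝ) ≤ 5 * Real.sqrt (n / Real.log n) ∨
      (h.natDegree : ℝ) ≤ 5 * Real.sqrt (n / Real.log n) := by
  obtain ⟨n₀, hn₀⟩ := two_factor2
  refine ⟨n₀ + 3, fun n hn ho g h hg hh hgh => ?_⟩
  obtain ⟨he, hm, hd⟩ := Rn_spec n (by omega) ho
  have hcm : (X * (X - C (1 / 2)) * (X - C 1) * g : ℚ[X]).Monic := cubic_monic.mul hg
  have hprod : (X * (X - C (1 / 2)) * (X - C 1) * g) * h = Polynomial.bernoulli n := by
    rw [he, ← hgh]; ring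
  rcases hn₀ n (by omega) ho _ h hcm hh hprod with h1 | h1
  · left
    rw [Monic.natDegree_mul cubic_monic hg] at h1
    push_cast at h1
    have : (0 : ℝ) ≤ (natDegree (X * (X - C (1 / 2)) * (X - C 1) : ℚ[X]) : ℝ) := Nat.cast_nonneg _
    linarith
  · right; exact h1

/-- one large irreducible factor -/
theorem large_irreducible : ∃ n₀ : ℕ, ∀ n : ℕ, n₀ ≤ n → Odd n →
    ∃ f : ℚ[X], Irreducible f ∧ f ∣ Rn n ∧
      (n : ℝ) - 3 - 5 * Real.sqrt (n / Real.log n) ≤ f.natDegree := by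
  obtain ⟨n₀, hn₀⟩ := two_factor_R
  refine ⟨n₀ + 400, fun n hn ho => ?_⟩
  obtain ⟨he, hm, hd⟩ := Rn_spec n (by omega) ho
  have hn5 : (400 : ℝ) ≤ n := by exact_mod_cast (by omega : 400 ≤ n)
  have hlog : 1 ≤ Real.log n := by
    rw [Real.le_log_iff_exp_le (by linarith)]
    linarith [Real.exp_one_lt_d9]
  have hs : 20 ≤ Real.sqrt n := Real.le_sqrt_of_sq_le (by norm_num; linarith)
  have hss : Real.sqrt n * Real.sqrt n = n := Real.mul_self_sqrt (by linarith)
  have hle : Real.sqrt (n / Real.log n) ≤ Real.sqrt n :=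
    Real.sqrt_le_sqrt (div_le_self (by linarith) hlog)
  have hdR : ((Rn n).natDegree : ℝ) = n - 3 := by
    rw [hd, Nat.cast_sub (by omega)]
    norm_num
  have hT0 : 0 ≤ 5 * Real.sqrt (n / Real.log n) := by positivity
  have hdeg : 3 * (5 * Real.sqrt (n / Real.log n)) < (Rn n).natDegree := by
    rw [hdR]
    nlinarith [Real.sqrt_nonneg (n : ℝ)]
  obtain ⟨f, hf, -, hfR, hfd⟩ := large_factor (Rn n) hm (5 * Real.sqrt (n / Real.log n)) hT0 hdeg
    (fun g h hg hh hgh => hn₀ n (by omega) ho g h hg hh hgh)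
  refine ⟨f, hf, hfR, ?_⟩
  rw [hdR] at hfd
  exact hfd

/-- the irreducibility criterion -/
theorem irred_criterion : ∃ n₀ : ℕ, ∀ n : ℕ, n₀ ≤ n → Odd n →
    (∀ l : ℕ, l.Prime → l ∣ n - 2 → 5 * Real.sqrt (n / Real.log n) < orderOf (2 : ZMod l)) →
    Irreducible (Rn n) := by
  obtain ⟨n₀, hn₀⟩ := two_factor_R
  refine ⟨n₀ + 5, fun n hn ho hl => irred_of n (by omega) ho (fun g h hg hh hgh => ?_)⟩
  by_contra hcon
  push Not at hcon
  have key : ∀ u : ℚ[X], u ∣ Rn n → u.natDegree ≠ 0 →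
      5 * Real.sqrt (n / Real.log n) < u.natDegree := by
    intro u hu hud
    obtain ⟨l, h1, h2, h3⟩ := factor_degree n (by omega) ho u hu (Nat.pos_of_ne_zero hud)
    have h4 := hl l h1 h2
    have h5 : (orderOf (2 : ZMod l) : ℝ) ≤ u.natDegree := by exact_mod_cast h3
    linarith
  have h1 := key g ⟨h, hgh.symm⟩ hcon.1
  have h2 := key h ⟨g, by rw [mul_comm]; exact hgh.symm⟩ hcon.2
  rcases hn₀ n (by omega) ho g h hg hh hgh with h3 | h3 <;> linarith

/-- `n - 2` prime with primitive root `2` -/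
theorem irred_primitive (n : ℕ) (hn : 5 ≤ n) (ho : Odd n) (hp : (n - 2).Prime)
    (h2 : orderOf (2 : ZMod (n - 2)) = n - 3) : Irreducible (Rn n) := by
  obtain ⟨-, hm, hd⟩ := Rn_spec n (by omega) ho
  refine irred_of n hn ho (fun g h hg hh hgh => ?_)
  by_contra hcon
  push Not at hcon
  have hsum : g.natDegree + h.natDegree = n - 3 := by
    rw [← hg.natDegree_mul hh, hgh, hd]
  obtain ⟨l, h3, h4, h5⟩ := factor_degree n hn ho g ⟨h, hgh.symm⟩ (Nat.pos_of_ne_zero hcon.1)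
  have h6 : l = n - 2 := (Nat.prime_dvd_prime_iff_eq h3 hp).1 h4
  subst h6
  rw [h2] at h5
  have := Nat.pos_of_ne_zero hcon.2
  omega

/-- few primes `q` with `R_(q+2)` reducible -/
theorem few_reducible : ∃ K : ℝ, 0 < K ∧ ∃ x₀ : ℕ, ∀ x : ℕ, x₀ ≤ x →
    ({q : ℕ | q ≤ x ∧ q.Prime ∧ ¬ Irreducible (Rn (q + 2))}.ncard : ℝ) ≤
      K * x / (Real.log x) ^ 2 := by
  classical
  obtain ⟨K, hK, x₀, hx₀⟩ := few_bad_primes 5 (by norm_num)
  obtain ⟨n₀, hn₀⟩ := irred_criterion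
  have hlim : ∀ᶠ x : ℕ in Filter.atTop, ((n₀ : ℝ) + 3) * (Real.log x) ^ 2 ≤ x := by
    have h1 : (fun x : ℝ => (Real.log x) ^ 2) =o[Filter.atTop] (fun x : ℝ => x) := by
      simpa using (isLittleO_log_rpow_rpow_atTop (s := 1) 2 (by norm_num)).congr'
        (by filter_upwards with x; norm_cast) (by filter_upwards with x; simp)
    have h2 := (tendsto_natCast_atTop_atTop (R := ℝ)).eventually
      (h1.bound (show (0 : ℝ) < ((n₀ : ℝ) + 3)⁻¹ by positivity))
    filter_upwards [h2] with x hx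
    rw [Real.norm_of_nonneg (by positivity), Real.norm_of_nonneg (Nat.cast_nonneg x)] at hx
    have hpos : (0 : ℝ) < (n₀ : ℝ) + 3 := by positivity
    calc ((n₀ : ℝ) + 3) * (Real.log x) ^ 2 ≤ ((n₀ : ℝ) + 3) * (((n₀ : ℝ) + 3)⁻¹ * x) :=
          mul_le_mul_of_nonneg_left hx hpos.le
      _ = x := by rw [← mul_assoc, mul_inv_cancel₀ hpos.ne', one_mul]
  rw [Filter.eventually_atTop] at hlim
  obtain ⟨x₁, hx₁⟩ := hlim
  refine ⟨K + 1, by positivity, x₀ + x₁ + 10, fun x hx => ?_⟩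
  have hbad := hx₀ x (by omega)
  set Bd : Finset ℕ := (Finset.range (x + 1)).filter (fun q : ℕ => q.Prime ∧
        (orderOf (2 : ZMod q) : ℝ) ≤ 5 * Real.sqrt (((q : ℝ) + 2) / Real.log ((q : ℝ) + 2)))
    with hBd
  have hsub : {q : ℕ | q ≤ x ∧ q.Prime ∧ ¬ Irreducible (Rn (q + 2))} ⊆
      ((Bd ∪ Finset.range (n₀ + 3) : Finset ℕ) : Set ℕ) := by
    rintro q ⟨hqx, hqp, hqi⟩
    rw [Finset.mem_coe, Finset.mem_union]
    by_cases hq : q < n₀ + 3
    · right; exact Finset.mem_range.2 hq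
    · left
      rw [hBd, Finset.mem_filter, Finset.mem_range]
      refine ⟨by omega, hqp, ?_⟩
      by_contra hcon
      push Not at hcon
      apply hqi
      have hq2 : q ≠ 2 := by omega
      have hodd : Odd q := hqp.odd_of_ne_two hq2
      have hodd2 : Odd (q + 2) := by
        rcases hodd with ⟨k, hk⟩
        exact ⟨k + 1, by omega⟩
      refine hn₀ (q + 2) (by omega) hodd2 (fun l hl hlq => ?_)
      rw [Nat.add_sub_cancel] at hlq
      have hlq' : l = q := (Nat.prime_dvd_prime_iff_eq hl hqp).1 hlq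
      rw [hlq']
      push_cast
      exact hcon
  have hle : ({q : ℕ | q ≤ x ∧ q.Prime ∧ ¬ Irreducible (Rn (q + 2))}.ncard : ℝ) ≤
      (Bd.card : ℝ) + (n₀ + 3) := by
    have h1 := Set.ncard_le_ncard hsub (Finset.finite_toSet _)
    rw [Set.ncard_coe_finset] at h1
    have h2 : (Bd ∪ Finset.range (n₀ + 3)).card ≤ Bd.card + (n₀ + 3) := by
      refine (Finset.card_union_le _ _).trans ?_
      rw [Finset.card_range]
    exact_mod_cast h1.trans h2
  have hx2 : (10 : ℝ) ≤ x := by exact_mod_cast (by omega : 10 ≤ x)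
  have hlx : 0 < Real.log x := Real.log_pos (by linarith)
  have h3 : (n₀ : ℝ) + 3 ≤ x / (Real.log x) ^ 2 := by
    rw [le_div_iff₀ (by positivity)]
    exact hx₁ x (by omega)
  have h4 : (K + 1) * x / (Real.log x) ^ 2 = K * x / (Real.log x) ^ 2 + x / (Real.log x) ^ 2 := by
    ring
  rw [h4]
  linarith

/-- density zero among the primes -/
theorem density_reducible : Filter.Tendsto (fun x : ℕ =>
    ({q : ℕ | q ≤ x ∧ q.Prime ∧ ¬ Irreducible (Rn (q + 2))}.ncard : ℝ) /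
      ({q : ℕ | q ≤ x ∧ q.Prime}.ncard : ℝ)) Filter.atTop (nhds 0) := by
  obtain ⟨K, hK, x₀, hx₀⟩ := few_reducible
  have hπ : ∀ x : ℕ, ({q : ℕ | q ≤ x ∧ q.Prime}.ncard : ℝ) = Nat.primeCounting x := by
    intro x
    have h1 : {q : ℕ | q ≤ x ∧ q.Prime} =
        (((Finset.range (x + 1)).filter Nat.Prime : Finset ℕ) : Set ℕ) := by
      ext q
      simp only [Set.mem_ofPred_eq, Finset.coe_filter, Finset.mem_range]
      constructor
      · rintro ⟨h1, h2⟩; exact ⟨by omega, h2⟩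
      · rintro ⟨h1, h2⟩; exact ⟨by omega, h2⟩
    rw [h1, Set.ncard_coe_finset, Nat.primeCounting, Nat.primeCounting', Nat.count_eq_card_filter_range]
  have hlog : Filter.Tendsto (fun x : ℕ => 4 * K * (Real.log x)⁻¹) Filter.atTop (nhds 0) := by
    have h1 : Filter.Tendsto (fun x : ℕ => (Real.log x)⁻¹) Filter.atTop (nhds 0) :=
      (Real.tendsto_log_atTop.comp tendsto_natCast_atTop_atTop).inv_tendsto_atTop
    simpa using h1.const_mul (4 * K)
  refine squeeze_zero' ?_ ?_ hlog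
  · filter_upwards with x
    positivity
  · filter_upwards [Filter.eventually_ge_atTop (x₀ + 100)] with x hx
    have hx2 : (100 : ℝ) ≤ x := by exact_mod_cast (by omega : 100 ≤ x)
    have hlx : 0 < Real.log x := Real.log_pos (by linarith)
    have h1 := hx₀ x (by omega)
    have h2 := Chebyshev.pi_ge x
    have h3 : (x : ℝ) / (4 * Real.log x) ≤ Nat.primeCounting x := by
      refine le_trans ?_ h2
      rw [div_le_div_iff₀ (by positivity) hlx]
      have hl2 : (0.69 : ℝ) < Real.log 2 := by linarith [Real.log_two_gt_d9]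
      have hl3 : Real.log ((x : ℝ) + 1) ≤ x / 4 := by
        have h5 : Real.log ((x : ℝ) + 1) = 2 * Real.log (Real.sqrt (x + 1)) := by
          rw [Real.log_sqrt (by linarith)]; ring
        have h6 : Real.log (Real.sqrt ((x : ℝ) + 1)) ≤ Real.sqrt (x + 1) - 1 :=
          Real.log_le_sub_one_of_pos (Real.sqrt_pos.2 (by linarith))
        have h7 : Real.sqrt ((x : ℝ) + 1) ≤ x / 8 := by
          rw [Real.sqrt_le_left (by linarith)]
          nlinarith
        linarith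
      have h8 : (x : ℝ) / 4 ≤ x * Real.log 2 - Real.log ((x : ℝ) + 1) := by nlinarith
      calc (x : ℝ) * Real.log x = (x / 4) * (4 * Real.log x) := by ring
        _ ≤ _ := mul_le_mul_of_nonneg_right h8 (by positivity)
    rw [hπ x]
    have hπ0 : (0 : ℝ) < Nat.primeCounting x := lt_of_lt_of_le (by positivity) h3
    rw [div_le_iff₀ hπ0]
    calc _ ≤ K * x / (Real.log x) ^ 2 := h1
      _ = 4 * K * (Real.log x)⁻¹ * (x / (4 * Real.log x)) := by field_simp
      _ ≤ _ := mul_le_mul_of_nonneg_left h3 (by positivity)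

end Pool.Agent.H319B
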